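import Pool.Agent.Y819.ZF.Stm

set_option autoImplicit false
set_option linter.all false

namespace Pool.Agent.Y819.ZF.Rel

open MvPolynomial Finset Pool.Agent.Helper929 Pool.Agent.H604R2.LEC Pool.Agent.Y819.ZF

/-! ### degrees -/

theorem ncard_filter {V : Type} [Fintype V] (Q : V → Prop) (inst : DecidablePred Q) :
    (@Finset.filter V Q inst univ).card = {w | Q w}.ncard := by
  rw [← Set.ncard_coe_finset]
  congr 1
  ext w
  simp

open Classical in
theorem reg_graph {n d : ℕ} (G : SimpleGraph (Fin n))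
    (hG : ∀ v, {w | G.Adj v w}.ncard = d) : Reg d (gτ G) (gη G) := by
  intro i
  rw [← hG i, ← ncard_filter _ (fun w => Classical.propDecidable _)]
  have h1 : (univ.filter fun w => G.Adj i w).card =
      (univ.filter fun w => G.Adj i w ∧ i < w).card + (univ.filter fun w => G.Adj i w ∧ ¬ i < w).card := by
    rw [← Finset.filter_filter, ← Finset.filter_filter]
    exact (Finset.card_filter_add_card_filter_not _).symm
  rw [h1]
  congr 1
  · refine Finset.card_bij (fun e _ => gη G e) ?_ ?_ ?_
    · intro e he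
      rw [mem_filter] at he ⊢
      obtain ⟨⟨⟨⟨a, b⟩, hab⟩, hadj⟩, _⟩ := (⟨e, trivial⟩ : ∃ _ : GE G, True)
      obtain ⟨_, he⟩ := he
      have h2 := e.2
      have h3 := e.1.2
      change e.1.1.1 = i at he
      rw [← he]
      exact ⟨mem_univ _, h2, h3⟩
    · intro e he e' he' h
      rw [mem_filter] at he he'
      have h2 : e.1.1.1 = e'.1.1.1 := he.2.trans he'.2.symm
      have h3 : e.1.1.2 = e'.1.1.2 := h
      exact Subtype.ext (Subtype.ext (Prod.ext h2 h3))
    · intro w hw
      rw [mem_filter] at hw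
      exact ⟨⟨⟨(i, w), hw.2.2⟩, hw.2.1⟩, mem_filter.2 ⟨mem_univ _, rfl⟩, rfl⟩
  · refine Finset.card_bij (fun e _ => gτ G e) ?_ ?_ ?_
    · intro e he
      rw [mem_filter] at he ⊢
      obtain ⟨_, he⟩ := he
      have h2 := e.2
      have h3 := e.1.2
      change e.1.1.2 = i at he
      rw [← he]
      exact ⟨mem_univ _, h2.symm, not_lt.2 (le_of_lt h3)⟩
    · intro e he e' he' h
      rw [mem_filter] at he he'
      have h2 : e.1.1.2 = e'.1.1.2 := he.2.trans he'.2.symm
      have h3 : e.1.1.1 = e'.1.1.1 := h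
      exact Subtype.ext (Subtype.ext (Prod.ext h3 h2))
    · intro w hw
      rw [mem_filter] at hw
      have h2 : w < i := lt_of_le_of_ne (not_lt.1 hw.2.2) hw.2.1.ne.symm
      exact ⟨⟨⟨(w, i), h2⟩, hw.2.1.symm⟩, mem_filter.2 ⟨mem_univ _, rfl⟩, rfl⟩

theorem reg_perm {n d : ℕ} {E : Type} [Fintype E] (τ η : E → Fin n) (h : Reg d τ η)
    (σ : Equiv.Perm (Fin n)) : Reg d (fun e => σ (τ e)) (fun e => σ (η e)) := by
  intro i
  rw [← h (σ.symm i)]
  congr 2
  · ext e
    simp [Equiv.eq_symm_apply]
  · ext e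
    simp [Equiv.eq_symm_apply]

theorem reg_card {n d : ℕ} {E : Type} [Fintype E] (τ η : E → Fin n) (h : Reg d τ η) :
    2 * Fintype.card E = d * n := by
  have h1 : ∑ i : Fin n, ((univ.filter fun e => τ e = i).card +
      (univ.filter fun e => η e = i).card) = d * n := by
    rw [Finset.sum_congr rfl fun i _ => h i, Finset.sum_const, Finset.card_univ, Fintype.card_fin,
      smul_eq_mul, mul_comm]
  rw [Finset.sum_add_distrib, ← Finset.card_eq_sum_card_fiberwise (fun e _ => mem_univ _),
    ← Finset.card_eq_sum_card_fiberwise (fun e _ => mem_univ _), Finset.card_univ] at h1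
  omega

open Classical in
/-- the edges containing a vertex -/
theorem reg_ME {f d : ℕ} (m : Ed f → ℕ)
    (h : ∀ c, ∑ e ∈ univ.filter (fun e : Ed f => e.1.1 = c ∨ e.1.2 = c), m e = d) :
    Reg d (mτ m) (mη m) := by
  intro c
  rw [← h c]
  have key : ∀ (P : Ed f → Prop) [DecidablePred P],
      (univ.filter fun x : ME m => P x.1).card = ∑ e ∈ univ.filter P, m e := by
    intro P _
    rw [Finset.card_filter, Fintype.sum_sigma, Finset.sum_filter]
    refine Finset.sum_congr rfl fun e _ => ?_
    by_cases hP : P e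
    · simp [hP]
    · simp [hP]
  have h1 := key (fun e => e.1.1 = c)
  have h2 := key (fun e => e.1.2 = c)
  have e1 : (univ.filter fun x : ME m => mτ m x = c).card = ∑ e ∈ univ.filter (fun e : Ed f => e.1.1 = c), m e := h1
  have e2 : (univ.filter fun x : ME m => mη m x = c).card = ∑ e ∈ univ.filter (fun e : Ed f => e.1.2 = c), m e := h2
  rw [e1, e2, Finset.filter_or, Finset.sum_union]
  rw [Finset.disjoint_filter]
  intro e _ h3 h4
  have h5 := e.2
  rw [h3, h4] at h5
  exact lt_irrefl _ h5

end Pool.Agent.Y819.ZF.Rel
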