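import Pool.Agent.Y819.ZF.Rel3

set_option autoImplicit false
set_option linter.all false

namespace Pool.Agent.Y819.ZF.Asm

open MvPolynomial Finset Pool.Agent.Helper929 Pool.Agent.H604R2.LEC Pool.Agent.Y819.ZF Pool.Agent.Y819.ZF.Rel

/-- transport of a forcing process -/
theorem forces_map {V W : Type} [DecidableEq V] [DecidableEq W] {f : ℕ} (e : V ≃ W) (F : SimpleGraph V)
    (Z : Finset V) (h : Fin f → V) (m : Ed f → ℕ) (hF : Forces F Z h m) :
    Forces (F.comap e.symm) (Z.map e.toEmbedding) (fun c => e (h c)) m := by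
  induction hF with
  | done h =>
    have h1 := Forces.done (F := F.comap e.symm) (fun c => e (h c))
    rw [Finset.map_empty]
    refine Eq.mp (congrArg _ ?_) h1
    funext x
    have h2 : (F.comap e.symm).Adj (e (h x.1.1)) (e (h x.1.2)) ↔ F.Adj (h x.1.1) (h x.1.2) := by
      simp
    by_cases hA : F.Adj (h x.1.1) (h x.1.2)
    · rw [if_pos hA]
      exact if_pos (h2.2 hA)
    · rw [if_neg hA]
      exact if_neg (fun h7 => hA (h2.1 h7))
  | step Z h c u m hu hadj huniq hm ih =>
    have h2 : (Z.map e.toEmbedding).erase (e u) = (Z.erase u).map e.toEmbedding := by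
      rw [Finset.map_erase]
      rfl
    have h3 : Function.update (fun c => e (h c)) c (e u) = fun c' => e (Function.update h c u c') := by
      funext c'
      by_cases hc : c' = c
      · subst hc
        rw [Function.update_self, Function.update_self]
      · rw [Function.update_of_ne hc, Function.update_of_ne hc]
    have h1 := Forces.step (F := F.comap e.symm) (Z.map e.toEmbedding) (fun c => e (h c)) c (e u) m
      (by
        rw [Finset.mem_map]
        exact ⟨u, hu, rfl⟩)
      (by simpa using hadj)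
      (by
        intro z hz hadj'
        rw [Finset.mem_map] at hz
        obtain ⟨z', hz', rfl⟩ := hz
        have h4 : z' = u := huniq z' hz' (by simpa using hadj')
        rw [h4]
        rfl)
      (by rw [h2, h3]; exact ih)
    refine Eq.mp (congrArg _ ?_) h1
    funext x
    have h5 : (F.comap e.symm).Adj (e (h x.1.1)) (e (h x.1.2)) ↔ F.Adj (h x.1.1) (h x.1.2) := by
      simp
    have h6 : ((x.1.1 = c ∨ x.1.2 = c) ∧ ¬ (F.comap e.symm).Adj (e (h x.1.1)) (e (h x.1.2))) ↔
        ((x.1.1 = c ∨ x.1.2 = c) ∧ ¬ F.Adj (h x.1.1) (h x.1.2)) := by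
      rw [h5]
    refine congrArg (fun t => m x + t) ?_
    by_cases hA : (x.1.1 = c ∨ x.1.2 = c) ∧ ¬ F.Adj (h x.1.1) (h x.1.2)
    · rw [if_pos hA]
      exact if_pos (h6.2 hA)
    · rw [if_neg hA]
      exact if_neg (fun h7 => hA (h6.1 h7))

/-- the numbering of the vertices -/
theorem exists_equiv {V : Type} [Fintype V] [DecidableEq V] {z f : ℕ} (hV : Fintype.card V = z + f)
    (h : Fin f → V) (hinj : Function.Injective h) :
    ∃ e : V ≃ Fin (z + f), (∀ c, e (h c) = Fin.natAdd z c) ∧
      (univ.filter fun v => ∀ c, h c ≠ v).map e.toEmbedding =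
        univ.image (Fin.castAdd f : Fin z → Fin (z + f)) := by
  classical
  have hcard : Fintype.card {v // ∀ c, h c ≠ v} = z := by
    have h1 := Fintype.card_subtype_compl (fun v => ∃ c, h c = v)
    have h2 : Fintype.card {v // ∃ c, h c = v} = f := by
      have h3 : Fintype.card (Set.range h) = f := by
        rw [Set.card_range_of_injective hinj, Fintype.card_fin]
      have h4 : Fintype.card {v // ∃ c, h c = v} = Fintype.card (Set.range h) := by
        refine Fintype.card_congr (Equiv.refl _)
      rw [h4, h3]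
    have h5 : Fintype.card {v // ∀ c, h c ≠ v} = Fintype.card {v // ¬ ∃ c, h c = v} :=
      Fintype.card_congr (Equiv.subtypeEquivRight fun v => by push Not; rfl)
    rw [h5, h1, h2, hV]
    omega
  let α : Fin z ≃ {v // ∀ c, h c ≠ v} := (Fintype.equivFinOfCardEq hcard).symm
  let g : Fin z ⊕ Fin f → V := Sum.elim (fun a => (α a).1) h
  have hg : Function.Bijective g := by
    refine (Fintype.bijective_iff_injective_and_card g).2 ⟨?_, ?_⟩
    · intro a b hab
      rcases a with a | a <;> rcases b with b | b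
      · exact congrArg Sum.inl (α.injective (Subtype.ext hab))
      · exact absurd hab.symm ((α a).2 b)
      · exact absurd hab ((α b).2 a)
      · exact congrArg Sum.inr (hinj hab)
    · rw [Fintype.card_sum, Fintype.card_fin, Fintype.card_fin, hV]
  let e : V ≃ Fin (z + f) := (Equiv.ofBijective g hg).symm.trans finSumFinEquiv
  have he1 : ∀ c, e (h c) = Fin.natAdd z c := by
    intro c
    have : (Equiv.ofBijective g hg).symm (h c) = Sum.inr c := by
      rw [Equiv.symm_apply_eq]
      rfl
    show finSumFinEquiv ((Equiv.ofBijective g hg).symm (h c)) = _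
    rw [this]
    rfl
  have he2 : ∀ a, e (α a).1 = Fin.castAdd f a := by
    intro a
    have : (Equiv.ofBijective g hg).symm (α a).1 = Sum.inl a := by
      rw [Equiv.symm_apply_eq]
      rfl
    show finSumFinEquiv ((Equiv.ofBijective g hg).symm (α a).1) = _
    rw [this]
    rfl
  refine ⟨e, he1, ?_⟩
  ext x
  rw [Finset.mem_map, mem_image]
  constructor
  · rintro ⟨v, hv, rfl⟩
    rw [mem_filter] at hv
    refine ⟨α.symm ⟨v, hv.2⟩, mem_univ _, ?_⟩
    rw [← he2, Equiv.apply_symm_apply]
    rfl
  · rintro ⟨a, _, rfl⟩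
    refine ⟨(α a).1, mem_filter.2 ⟨mem_univ _, (α a).2⟩, ?_⟩
    exact he2 a

theorem comap_deg {V W : Type} (e : V ≃ W) (F : SimpleGraph V) (v : W) :
    ((F.comap e.symm).neighborSet v).ncard = (F.neighborSet (e.symm v)).ncard := by
  have : (F.comap e.symm).neighborSet v = e '' (F.neighborSet (e.symm v)) := by
    ext w
    rw [Set.mem_image]
    constructor
    · intro h
      exact ⟨e.symm w, h, by simp⟩
    · rintro ⟨x, hx, rfl⟩
      simpa using hx
  rw [this, Set.ncard_image_of_injective _ e.injective]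

/-- list colourings of the covers, in terms of the chain multigraph -/
theorem main_EL (hREL : S_REL) (hGC : S_GC) (p : ℕ) [hp : Fact p.Prime] (hp2 : p ≠ 2) (f : ℕ) (V : Type)
    [Fintype V] [DecidableEq V] (F : SimpleGraph V) (hV : Fintype.card V = p - 1 + f)
    (hreg : ∀ v, (F.neighborSet v).ncard = f) (h : Fin f → V) (hinj : Function.Injective h)
    (m : Ed f → ℕ) (hF : Forces F (univ.filter fun v => ∀ c, h c ≠ v) h m)
    (hcc : cc (ZMod p) (p - 2) (mτ m) (mη m) ≠ 0)
    (P : Type) [Group P] [Fintype P] (hP : IsPGroup p P) (β : V → V → P) (hβ : ∀ u v, β v u = (β u v)⁻¹) :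
    Pool.Agent.W426.LE.EL.EL (coverGraph Fᶜ β hβ) (p - 2) := by
  classical
  have hp2' := hp.out.two_le
  obtain ⟨e, he1, he2⟩ := exists_equiv hV h hinj
  have hF' := forces_map e F _ h m hF
  rw [he2] at hF'
  have he3 : (fun c => e (h c)) = Fin.natAdd (p - 1) := funext he1
  rw [he3] at hF'
  have hreg' : ∀ v, ((F.comap e.symm).neighborSet v).ncard = f := fun v => by
    rw [comap_deg, hreg]
  have h1 := hREL p hp2 f (F.comap e.symm) m hreg' hF' hcc
  have h2 := hGC p (p - 1 + f) (p - 2) (F.comap e.symm)ᶜ (by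
    intro v
    rw [ncard_filter, compl_deg (F.comap e.symm) (by omega) hreg']
    omega) h1 P hP (fun a b => β (e.symm a) (e.symm b)) (fun a b => hβ _ _)
  refine Pool.Agent.W426.LE.EL.mono _ _ (fun x : V × P => (e x.1, x.2)) ?_ ?_ _ h2
  · rintro ⟨v, a⟩ ⟨w, b⟩ hvw
    simp only [Prod.mk.injEq] at hvw
    exact Prod.ext (e.injective hvw.1) hvw.2
  · rintro ⟨v, a⟩ ⟨w, b⟩ hvw
    obtain ⟨h3, h4⟩ := hvw
    refine ⟨?_, ?_⟩
    · rw [SimpleGraph.compl_adj] at h3 ⊢
      refine ⟨fun h5 => h3.1 (e.injective h5), ?_⟩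
      simpa using h3.2
    · simp only [Equiv.symm_apply_apply]
      exact h4

/-- the degrees of the chain multigraph -/
theorem main_deg (hDEG : S_DEG) (p : ℕ) [hp : Fact p.Prime] (f : ℕ) (V : Type)
    [Fintype V] [DecidableEq V] (F : SimpleGraph V) (hV : Fintype.card V = p - 1 + f)
    (hreg : ∀ v, (F.neighborSet v).ncard = f) (h : Fin f → V) (hinj : Function.Injective h)
    (m : Ed f → ℕ) (hF : Forces F (univ.filter fun v => ∀ c, h c ≠ v) h m) :
    ∀ inst : ∀ c, DecidablePred (fun e : Ed f => e.1.1 = c ∨ e.1.2 = c),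
    ∀ c, ∑ e ∈ univ.filter (fun e : Ed f => e.1.1 = c ∨ e.1.2 = c), m e = p - 2 := by
  intro inst c
  have hp2' := hp.out.two_le
  have hcod : ∀ v, codeg F (univ.filter fun v => ∀ c, h c ≠ v) h v = p - 2 := by
    intro v
    have h1 := Set.ncard_add_ncard_compl (F.neighborSet v)
    rw [Nat.card_eq_fintype_card, hV, hreg] at h1
    unfold codeg
    rw [ncard_filter]
    have h2 : (F.neighborSet v)ᶜ = insert v {w | Cur (univ.filter fun v => ∀ c, h c ≠ v) h w ∧ w ≠ v ∧ ¬ F.Adj v w} := by
      ext w
      rw [Set.mem_compl_iff, Set.mem_insert_iff, Set.mem_setOf_eq, SimpleGraph.mem_neighborSet]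
      constructor
      · intro h3
        by_cases h4 : w = v
        · exact Or.inl h4
        · refine Or.inr ⟨?_, h4, h3⟩
          unfold Cur
          by_cases h5 : ∃ c, h c = w
          · exact Or.inr h5
          · push Not at h5
            exact Or.inl (mem_filter.2 ⟨mem_univ _, h5⟩)
      · rintro (h3 | h3)
        · subst h3
          exact F.loopless.irrefl _
        · exact h3.2.2
    rw [h2, Set.ncard_insert_of_notMem] at h1
    · omega
    · exact fun h3 => h3.2.1 rfl
  have hZ : (univ.filter fun v => ∀ c, h c ≠ v).card = p - 1 := by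
    have h1 := Finset.card_filter_add_card_filter_not (s := (univ : Finset V)) (fun v => ∀ c, h c ≠ v)
    have h2 : (univ.filter fun v => ¬ ∀ c, h c ≠ v).card = f := by
      have : (univ.filter fun v => ¬ ∀ c, h c ≠ v) = univ.image h := by
        ext v
        simp
      rw [this, Finset.card_image_of_injective _ hinj, Finset.card_univ, Fintype.card_fin]
    rw [h2, Finset.card_univ, hV] at h1
    omega
  rw [← hcod (h c), ← hDEG V f F (univ.filter fun v => ∀ c, h c ≠ v) h m hinj (by
    intro c hc
    rw [mem_filter] at hc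
    exact hc.2 c rfl) (by
    intro v _
    rw [hcod, hZ]
    omega) hF c]
  refine Finset.sum_congr ?_ fun _ _ => rfl
  ext x
  simp

/-- list colourings of the covers: zero forcing sets with two or four elements -/
theorem main_24 (hREL : S_REL) (hGC : S_GC) (hDEG : S_DEG) (hCH : S_CHAIN) (hSM : S_SMALL)
    (p : ℕ) [hp : Fact p.Prime] (hp2 : p ≠ 2) (f : ℕ) (hf : f = 2 ∨ f = 4) (V : Type)
    [Fintype V] (F : SimpleGraph V) (hV : Fintype.card V = p - 1 + f)
    (hreg : ∀ v, (F.neighborSet v).ncard = f) (S : Set V) (hS : S.ncard = f) (hS2 : ∀ v, Forced F S v)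
    (P : Type) [Group P] [Fintype P] (hP : IsPGroup p P) (β : V → V → P) (hβ : ∀ u v, β v u = (β u v)⁻¹) :
    Pool.Agent.W426.LE.EL.EL (coverGraph Fᶜ β hβ) (p - 2) := by
  classical
  have hSc : Fintype.card S = f := by
    rw [← hS, Set.ncard_eq_toFinset_card', Set.toFinset_card]
  let α : Fin f ≃ S := (Fintype.equivFinOfCardEq hSc).symm
  let h : Fin f → V := fun c => (α c).1
  have hinj : Function.Injective h := fun a b hab => α.injective (Subtype.ext hab)
  have hZ : ∀ v, v ∉ (univ.filter fun v => ∀ c, h c ≠ v) ↔ ∃ c, h c = v := by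
    intro v
    rw [mem_filter]
    push Not
    constructor
    · intro h1
      exact h1 (mem_univ _)
    · intro h1 _
      exact h1
  have hSeq : S = {v | v ∉ (univ.filter fun v => ∀ c, h c ≠ v)} := by
    ext v
    rw [Set.mem_setOf_eq, hZ]
    constructor
    · intro hv
      exact ⟨α.symm ⟨v, hv⟩, by show (α (α.symm ⟨v, hv⟩)).1 = v; rw [Equiv.apply_symm_apply]⟩
    · rintro ⟨c, rfl⟩
      exact (α c).2
  obtain ⟨m, hm⟩ := hCH V f F _ h hinj hZ (by
    rw [← hSeq]
    exact hS2)
  have hdeg := main_deg hDEG p f V F hV hreg h hinj m hm (fun c => fun e => Classical.propDecidable _)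
  exact main_EL hREL hGC p hp2 f V F hV hreg h hinj m hm (hSM p hp2 f hf m (by
    intro c
    rw [← hdeg c]
    refine Finset.sum_congr ?_ fun _ _ => rfl
    ext x
    simp)) P hP β hβ

end Pool.Agent.Y819.ZF.Asm
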