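import Pool.Agent.Y819.ZF.Stm
import Pool.Agent.W426.LE.SG

set_option autoImplicit false
set_option linter.unusedSectionVars false

/-! Project ZF (helper819): the signed number of 1-factorizations and the Pfaffian. Written by helper889
(`Pool/Agent/Y889/ZF/Cnt.lean`); copied here with one changed step in `eps_eq`. -/

namespace Pool.Agent.Y819.ZF.CntF

open MvPolynomial Finset Pool.Agent.Helper929 Pool.Agent.H604R2.LEC
open Pool.Agent.Y819.ZF

/-! ### Pfaffians of matrices indexed by `Fin d × Fin n` -/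

/-- The index type. -/
abbrev TT (d n : ℕ) : Type := Fin d × Fin n

/-- Pfaffian of a matrix indexed by `TT d n`. -/
def pfT {R : Type*} [CommRing R] {d n : ℕ} (M : Matrix (TT d n) (TT d n) R) : R :=
  pf (d * n) (M.submatrix finProdFinEquiv.symm finProdFinEquiv.symm)

section pfT

variable {R S : Type*} [CommRing R] [CommRing S] {d n : ℕ}

theorem pfT_sq (M : Matrix (TT d n) (TT d n) R) (hM : ∀ i j, M i j = - M j i)
    (h0 : ∀ i, M i i = 0) : pfT M ^ 2 = M.det := by
  rw [pfT, eq_skew (M.submatrix finProdFinEquiv.symm finProdFinEquiv.symm)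
    (fun i j => hM _ _) (fun i => h0 _), pf_sq_ring, ← eq_skew (M.submatrix finProdFinEquiv.symm
    finProdFinEquiv.symm) (fun i j => hM _ _) (fun i => h0 _), Matrix.det_submatrix_equiv_self]

theorem pfT_map (M : Matrix (TT d n) (TT d n) R) (f : R →+* S) : f (pfT M) = pfT (M.map f) := by
  rw [pfT, pf_map]
  rfl

theorem pfT_gram (M : Matrix (TT d n) (TT d n) R) (hM : ∀ i j, M i j = - M j i)
    (h0 : ∀ i, M i i = 0) (W : Matrix (TT d n) (TT d n) R) :
    pfT (W * M * W.transpose) = W.det * pfT M := by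
  have h1 : (W * M * W.transpose).submatrix finProdFinEquiv.symm finProdFinEquiv.symm =
      (W.submatrix finProdFinEquiv.symm finProdFinEquiv.symm) *
      (M.submatrix finProdFinEquiv.symm finProdFinEquiv.symm) *
      (W.submatrix finProdFinEquiv.symm finProdFinEquiv.symm).transpose := by
    rw [Matrix.transpose_submatrix, Matrix.submatrix_mul_equiv, Matrix.submatrix_mul_equiv]
  have h2 := eq_skew (M.submatrix finProdFinEquiv.symm finProdFinEquiv.symm)
    (fun i j => hM _ _) (fun i => h0 _)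
  rw [pfT, h1, h2, pf_gram_ring, ← h2, Matrix.det_submatrix_equiv_self]
  rfl

end pfT

/-- the sign of a map -/
theorem eps_eq {d : ℕ} (f : Fin d → Fin d) :
    eps f = Pool.Agent.W426.LE.sg (Equiv.refl (Fin d)) f := by
  by_cases h : Function.Bijective f
  · obtain ⟨e, rfl⟩ : ∃ e : Equiv.Perm (Fin d), (e : Fin d → Fin d) = f :=
      ⟨Equiv.ofBijective f h, rfl⟩
    rw [Pool.Agent.W426.LE.sg_equiv]
    have h1 : (Matrix.of fun a j => if a = e j then (1 : ℤ) else 0) =
        (1 : Matrix (Fin d) (Fin d) ℤ).submatrix id e := by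
      ext a j
      rw [Matrix.submatrix_apply, Matrix.of_apply, Matrix.one_apply]
      rfl
    rw [eps, h1, Matrix.det_permute', Matrix.det_one, mul_one]
    have h2 : (e.trans (Equiv.refl (Fin d)).symm : Equiv.Perm (Fin d)) = e := by
      ext i; simp
    rw [h2]
    have hs' : ∀ (i1 i2 : DecidableEq (Fin d)) (τ : Equiv.Perm (Fin d)),
        (((@Equiv.Perm.sign _ i1 _ τ : ℤˣ) : ℤ)) = (((@Equiv.Perm.sign _ i2 _ τ : ℤˣ) : ℤ)) :=
      fun i1 i2 τ => by rw [Subsingleton.elim i1 i2]
    exact hs' _ _ _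
  · rw [Pool.Agent.W426.LE.sg_of_not _ _ h]
    have hs : ¬ Function.Surjective f := fun hs => h (Finite.surjective_iff_bijective.1 hs)
    simp only [Function.Surjective, not_forall, not_exists] at hs
    obtain ⟨a, ha⟩ := hs
    exact Matrix.det_eq_zero_of_row_eq_zero a fun j => by
      rw [Matrix.of_apply, if_neg (fun h => ha j h.symm)]

section main

variable {n d : ℕ} {E : Type} [Fintype E] (τ η : E → Fin n) (inc : Fin n → Fin d → E)

/-- The skew-symmetric matrix with weights. -/
noncomputable def gen {R : Type*} [CommRing R] (z : E → R) : Matrix (Fin n) (Fin n) R :=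
  Matrix.of fun i j => ∑ e, ((if τ e = i ∧ η e = j then z e else 0) -
    (if τ e = j ∧ η e = i then z e else 0))

theorem gen_antisymm {R : Type*} [CommRing R] (z : E → R) (i j : Fin n) :
    gen τ η z i j = - gen τ η z j i := by
  unfold gen
  rw [Matrix.of_apply, Matrix.of_apply, ← sum_neg_distrib]
  exact sum_congr rfl fun e _ => by ring

theorem gen_self {R : Type*} [CommRing R] (z : E → R) (i : Fin n) : gen τ η z i i = 0 := by
  unfold gen
  rw [Matrix.of_apply]
  exact sum_eq_zero fun e _ => sub_self _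

theorem gen_map {R S : Type*} [CommRing R] [CommRing S] (z : E → R) (f : R →+* S) :
    (gen τ η z).map f = gen τ η (fun e => f (z e)) := by
  ext i j
  rw [Matrix.map_apply]
  unfold gen
  rw [Matrix.of_apply, Matrix.of_apply, map_sum]
  refine sum_congr rfl fun e _ => ?_
  rw [map_sub, apply_ite f, apply_ite f, map_zero]

theorem pf_gen_sq {R : Type*} [CommRing R] (z : E → R) :
    pf n (gen τ η z) ^ 2 = (gen τ η z).det := by
  rw [eq_skew (gen τ η z) (gen_antisymm τ η z) (gen_self τ η z), pf_sq_ring]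

/-- The block matrix with one skew-symmetric block for each colour. -/
noncomputable def Bg {R : Type*} [CommRing R] (x : Fin d → E → R) :
    Matrix (TT d n) (TT d n) R :=
  Matrix.of fun s t => if s.1 = t.1 then gen τ η (x s.1) s.2 t.2 else 0

theorem Bg_antisymm {R : Type*} [CommRing R] (x : Fin d → E → R) (s t : TT d n) :
    Bg τ η x s t = - Bg τ η x t s := by
  unfold Bg
  rw [Matrix.of_apply, Matrix.of_apply]
  by_cases h : s.1 = t.1
  · rw [if_pos h, if_pos h.symm, gen_antisymm, h]
  · rw [if_neg h, if_neg (fun h2 => h h2.symm), neg_zero]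

theorem Bg_self {R : Type*} [CommRing R] (x : Fin d → E → R) (s : TT d n) :
    Bg τ η x s s = 0 := by
  unfold Bg
  rw [Matrix.of_apply, if_pos rfl, gen_self]

theorem Bg_map {R S : Type*} [CommRing R] [CommRing S] (x : Fin d → E → R) (f : R →+* S) :
    (Bg τ η x).map f = Bg τ η (fun a e => f (x a e)) := by
  ext s t
  rw [Matrix.map_apply]
  unfold Bg
  rw [Matrix.of_apply, Matrix.of_apply]
  split_ifs
  · rw [← gen_map, Matrix.map_apply]
  · exact map_zero f

theorem det_Bg {R : Type*} [CommRing R] (x : Fin d → E → R) :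
    (Bg τ η x).det = ∏ a, (gen τ η (x a)).det := by
  have h1 : Bg τ η x = (Matrix.blockDiagonal (fun a : Fin d => gen τ η (x a))).submatrix
      (Equiv.prodComm _ _) (Equiv.prodComm _ _) := by
    ext s t
    rw [Matrix.submatrix_apply, Matrix.blockDiagonal_apply]
    unfold Bg
    rw [Matrix.of_apply]
    rfl
  rw [h1, Matrix.det_submatrix_equiv_self, Matrix.det_blockDiagonal]

/-- The matrix of a colouring. -/
def WW (R : Type*) [CommRing R] (c : E → Fin d) : Matrix (TT d n) (TT d n) R :=
  Matrix.of fun s t => if s.2 = t.2 ∧ s.1 = c (inc t.2 t.1) then 1 else 0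

theorem det_WW {R : Type*} [CommRing R] (c : E → Fin d) :
    (WW inc R c).det = ∏ v : Fin n, ((eps (fun j => c (inc v j)) : ℤ) : R) := by
  have h1 : WW inc R c = Matrix.blockDiagonal (fun v : Fin n =>
      (Matrix.of fun a j => if a = c (inc v j) then (1 : R) else 0)) := by
    ext s t
    rw [Matrix.blockDiagonal_apply]
    unfold WW
    rw [Matrix.of_apply]
    by_cases h : s.2 = t.2
    · rw [if_pos h, Matrix.of_apply, h]
      simp
    · rw [if_neg h, if_neg (fun h2 => h h2.1)]
  rw [h1, Matrix.det_blockDiagonal]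
  apply Finset.prod_congr rfl
  intro v _
  have h2 := RingHom.map_det (Int.castRingHom R)
    (Matrix.of fun a j : Fin d => if a = c (inc v j) then (1 : ℤ) else 0)
  rw [eps]
  change _ = Int.castRingHom R _
  rw [h2]
  congr 1
  ext a j
  simp

end main

/-- the two halves of the edges -/
structure Half {n d : ℕ} {E : Type} (τ η : E → Fin n) (inc : Fin n → Fin d → E)
    (hT hH : E → TT d n) : Prop where
  ne : ∀ e, τ e ≠ η e
  T2 : ∀ e, (hT e).2 = τ e
  H2 : ∀ e, (hH e).2 = η e
  Te : ∀ e, inc (hT e).2 (hT e).1 = e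
  He : ∀ e, inc (hH e).2 (hH e).1 = e
  bij : Function.Bijective (Sum.elim hT hH : E ⊕ E → TT d n)

theorem exists_half {n d : ℕ} {E : Type} (τ η : E → Fin n) (inc : Fin n → Fin d → E)
    (h1 : ∀ e, τ e ≠ η e) (h2 : ∀ v, Function.Injective (inc v))
    (h3 : ∀ v e, (∃ i, inc v i = e) ↔ (v = τ e ∨ v = η e)) :
    ∃ hT hH : E → TT d n, Half τ η inc hT hH := by
  choose iT hiT using fun e => (h3 (τ e) e).2 (Or.inl rfl)
  choose iH hiH using fun e => (h3 (η e) e).2 (Or.inr rfl)
  refine ⟨fun e => (iT e, τ e), fun e => (iH e, η e), h1, fun _ => rfl, fun _ => rfl,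
    fun e => hiT e, fun e => hiH e, ?_, ?_⟩
  · rintro (e | e) (f | f) h
    · have h4 : iT e = iT f ∧ τ e = τ f := Prod.mk.inj h
      have h5 := hiT e
      rw [h4.1, h4.2, hiT f] at h5
      rw [h5]
    · have h4 : iT e = iH f ∧ τ e = η f := Prod.mk.inj h
      have h5 := hiT e
      rw [h4.1, h4.2, hiH f] at h5
      rw [h5] at h4
      exact absurd h4.2 (h1 e)
    · have h4 : iH e = iT f ∧ η e = τ f := Prod.mk.inj h
      have h5 := hiH e
      rw [h4.1, h4.2, hiT f] at h5
      rw [h5] at h4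
      exact absurd h4.2.symm (h1 e)
    · have h4 : iH e = iH f ∧ η e = η f := Prod.mk.inj h
      have h5 := hiH e
      rw [h4.1, h4.2, hiH f] at h5
      rw [h5]
  · rintro ⟨i, v⟩
    rcases (h3 v (inc v i)).1 ⟨i, rfl⟩ with h | h
    · refine ⟨Sum.inl (inc v i), ?_⟩
      have h4 : iT (inc v i) = i := by
        apply h2 (τ (inc v i))
        rw [hiT]
        exact congrArg (fun w => inc w i) h
      exact Prod.ext h4 h.symm
    · refine ⟨Sum.inr (inc v i), ?_⟩
      have h4 : iH (inc v i) = i := by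
        apply h2 (η (inc v i))
        rw [hiH]
        exact congrArg (fun w => inc w i) h
      exact Prod.ext h4 h.symm

section half

variable {n d : ℕ} {E : Type} [Fintype E] {τ η : E → Fin n} {inc : Fin n → Fin d → E}
  {hT hH : E → TT d n} (h : Half τ η inc hT hH)

include h

theorem Half.sum {M : Type*} [AddCommMonoid M] (f : TT d n → M) :
    ∑ s, f s = ∑ e, (f (hT e) + f (hH e)) := by
  rw [← (Equiv.ofBijective _ h.bij).sum_comp f, Fintype.sum_sum_type, sum_add_distrib]
  rfl

theorem Half.prod {M : Type*} [CommMonoid M] (f : TT d n → M) :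
    ∏ s, f s = ∏ e, (f (hT e) * f (hH e)) := by
  rw [← (Equiv.ofBijective _ h.bij).prod_comp f, Fintype.prod_sum_type, prod_mul_distrib]
  rfl

theorem Half.cases {P : TT d n → Prop} (h1 : ∀ e, P (hT e)) (h2 : ∀ e, P (hH e)) (s : TT d n) :
    P s := by
  obtain ⟨e | e, he⟩ := h.bij.2 s
  · rw [← he]; exact h1 e
  · rw [← he]; exact h2 e

theorem Half.HneT (e f : E) : hH e ≠ hT f := fun h0 => by
  have := h.bij.1 (show Sum.elim hT hH (Sum.inr e) = Sum.elim hT hH (Sum.inl f) from h0)
  simp at this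

theorem Half.injT (e f : E) (h0 : hT e = hT f) : e = f := by
  have := h.bij.1 (show Sum.elim hT hH (Sum.inl e) = Sum.elim hT hH (Sum.inl f) from h0)
  simpa using this

theorem Half.injH (e f : E) (h0 : hH e = hH f) : e = f := by
  have := h.bij.1 (show Sum.elim hT hH (Sum.inr e) = Sum.elim hT hH (Sum.inr f) from h0)
  simpa using this

end half

section Lm

variable {n d : ℕ} {E : Type} [Fintype E] (τ : E → Fin n) (inc : Fin n → Fin d → E)
  (hT hH : E → TT d n)

/-- The matrix pairing the two halves of each edge. -/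
def Lm {R : Type*} [CommRing R] (x : E → R) : Matrix (TT d n) (TT d n) R :=
  Matrix.of fun s t => if s.2 = τ (inc s.2 s.1) then
    (if t = hH (inc s.2 s.1) then x (inc s.2 s.1) else 0) else
    (if t = hT (inc s.2 s.1) then - x (inc s.2 s.1) else 0)

variable {τ inc hT hH} {η : E → Fin n} (h : Half τ η inc hT hH)

include h

theorem Half.LT {R : Type*} [CommRing R] (x : E → R) (e : E) (t : TT d n) :
    Lm τ inc hT hH x (hT e) t = if t = hH e then x e else 0 := by
  unfold Lm
  rw [Matrix.of_apply, h.Te, if_pos (h.T2 e)]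

theorem Half.LH {R : Type*} [CommRing R] (x : E → R) (e : E) (t : TT d n) :
    Lm τ inc hT hH x (hH e) t = if t = hT e then - x e else 0 := by
  unfold Lm
  rw [Matrix.of_apply, h.He, if_neg (by rw [h.H2 e]; exact (h.ne e).symm)]

theorem Half.L_antisymm {R : Type*} [CommRing R] (x : E → R) (s t : TT d n) :
    Lm τ inc hT hH x s t = - Lm τ inc hT hH x t s := by
  classical
  refine h.cases (P := fun s => Lm τ inc hT hH x s t = - Lm τ inc hT hH x t s)
    (fun e => ?_) (fun e => ?_) s
  · refine h.cases (P := fun t => Lm τ inc hT hH x (hT e) t = - Lm τ inc hT hH x t (hT e))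
      (fun f => ?_) (fun f => ?_) t
    · rw [h.LT, h.LT, if_neg (fun h0 => h.HneT _ _ h0.symm),
        if_neg (fun h0 => h.HneT _ _ h0.symm), neg_zero]
    · rw [h.LT, h.LH]
      by_cases hef : e = f
      · subst hef; simp
      · rw [if_neg (fun h0 => hef (h.injH _ _ h0).symm), if_neg (fun h0 => hef (h.injT _ _ h0)),
          neg_zero]
  · refine h.cases (P := fun t => Lm τ inc hT hH x (hH e) t = - Lm τ inc hT hH x t (hH e))
      (fun f => ?_) (fun f => ?_) t
    · rw [h.LH, h.LT]
      by_cases hef : e = f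
      · subst hef; simp
      · rw [if_neg (fun h0 => hef (h.injT _ _ h0).symm), if_neg (fun h0 => hef (h.injH _ _ h0)),
          neg_zero]
    · rw [h.LH, h.LH, if_neg (h.HneT _ _), if_neg (h.HneT _ _), neg_zero]

theorem Half.L_self {R : Type*} [CommRing R] (x : E → R) (s : TT d n) :
    Lm τ inc hT hH x s s = 0 := by
  refine h.cases (P := fun s => Lm τ inc hT hH x s s = 0) (fun e => ?_) (fun e => ?_) s
  · rw [h.LT, if_neg (fun h0 => h.HneT _ _ h0.symm)]
  · rw [h.LH, if_neg (h.HneT _ _)]

theorem Half.L_map {R S : Type*} [CommRing R] [CommRing S] (x : E → R) (f : R →+* S) :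
    (Lm τ inc hT hH x).map f = Lm τ inc hT hH (fun e => f (x e)) := by
  ext s t
  rw [Matrix.map_apply]
  refine h.cases (P := fun s => f (Lm τ inc hT hH x s t) = Lm τ inc hT hH (fun e => f (x e)) s t)
    (fun e => ?_) (fun e => ?_) s
  · rw [h.LT, h.LT, apply_ite f, map_zero]
  · rw [h.LH, h.LH, apply_ite f, map_zero, map_neg]

/-- the matrix with weights one is orthogonal -/
theorem Half.L_one : Lm τ inc hT hH (fun _ => (1 : ℤ)) *
    (Lm τ inc hT hH (fun _ => (1 : ℤ))).transpose = 1 := by
  classical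
  ext s t
  rw [Matrix.mul_apply]
  simp_rw [Matrix.transpose_apply]
  refine h.cases (P := fun s => ∑ j, Lm τ inc hT hH (fun _ => (1 : ℤ)) s j *
    Lm τ inc hT hH (fun _ => (1 : ℤ)) t j = (1 : Matrix (TT d n) (TT d n) ℤ) s t)
    (fun e => ?_) (fun e => ?_) s
  · simp_rw [h.LT]
    simp only [ite_mul, one_mul, zero_mul, sum_ite_eq', mem_univ, if_true]
    refine h.cases (P := fun t => Lm τ inc hT hH (fun _ => (1 : ℤ)) t (hH e) =
      (1 : Matrix (TT d n) (TT d n) ℤ) (hT e) t) (fun f => ?_) (fun f => ?_) t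
    · rw [h.LT, Matrix.one_apply]
      by_cases hef : e = f
      · subst hef; simp
      · rw [if_neg (fun h0 => hef (h.injH _ _ h0)), if_neg (fun h0 => hef (h.injT _ _ h0))]
    · rw [h.LH, Matrix.one_apply, if_neg (h.HneT _ _), if_neg (fun h0 => h.HneT _ _ h0.symm)]
  · simp_rw [h.LH]
    simp only [ite_mul, neg_mul, one_mul, zero_mul, sum_ite_eq', mem_univ, if_true]
    refine h.cases (P := fun t => - Lm τ inc hT hH (fun _ => (1 : ℤ)) t (hT e) =
      (1 : Matrix (TT d n) (TT d n) ℤ) (hH e) t) (fun f => ?_) (fun f => ?_) t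
    · rw [h.LT, Matrix.one_apply, if_neg (fun h0 => h.HneT _ _ h0.symm), if_neg (h.HneT _ _),
        neg_zero]
    · rw [h.LH, Matrix.one_apply]
      by_cases hef : e = f
      · subst hef; simp
      · rw [if_neg (fun h0 => hef (h.injT _ _ h0)), if_neg (fun h0 => hef (h.injH _ _ h0)),
          neg_zero]

/-- The Pfaffian of the matrix of half-edges. -/
theorem Half.pf_L : ∃ ε : ℤ, (ε = 1 ∨ ε = -1) ∧ ∀ (R : Type) [CommRing R] (x : E → R),
    pfT (Lm τ inc hT hH x) = (ε : R) * ∏ e, x e := by
  classical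
  refine ⟨pfT (Lm τ inc hT hH (fun _ => (1 : ℤ))), ?_, ?_⟩
  · have h1 := pfT_sq _ (h.L_antisymm (fun _ => (1 : ℤ))) (h.L_self (fun _ => (1 : ℤ)))
    have h2 := congrArg Matrix.det h.L_one
    rw [Matrix.det_mul, Matrix.det_transpose, Matrix.det_one, ← h1] at h2
    set q := pfT (Lm τ inc hT hH (fun _ => (1 : ℤ))) with hq
    have h3 : IsUnit q := IsUnit.of_mul_eq_one (q * (q ^ 2)) (by linear_combination h2)
    exact Int.isUnit_iff.1 h3
  · intro R _ x
    have h1 : pfT (Lm τ inc hT hH (fun _ => (1 : R))) =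
        ((pfT (Lm τ inc hT hH (fun _ => (1 : ℤ))) : ℤ) : R) := by
      have h2 := pfT_map (Lm τ inc hT hH (fun _ => (1 : ℤ))) (Int.castRingHom R)
      rw [h.L_map] at h2
      simp only [eq_intCast, Int.cast_one] at h2
      exact h2.symm
    obtain ⟨z, hz⟩ : ∃ z : TT d n → R, z = fun s => if s.2 = τ (inc s.2 s.1) then
      x (inc s.2 s.1) else 1 := ⟨_, rfl⟩
    have hzT : ∀ e, z (hT e) = x e := fun e => by
      rw [hz]
      simp only
      rw [h.Te, if_pos (h.T2 e)]
    have hzH : ∀ e, z (hH e) = 1 := fun e => by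
      rw [hz]
      simp only
      rw [h.He, if_neg (by rw [h.H2 e]; exact (h.ne e).symm)]
    have h3 : Lm τ inc hT hH x = Matrix.diagonal z * Lm τ inc hT hH (fun _ => (1 : R)) *
        (Matrix.diagonal z).transpose := by
      rw [Matrix.diagonal_transpose]
      ext s t
      rw [Matrix.mul_diagonal, Matrix.diagonal_mul]
      refine h.cases (P := fun s => Lm τ inc hT hH x s t =
        z s * Lm τ inc hT hH (fun _ => (1 : R)) s t * z t) (fun e => ?_) (fun e => ?_) s
      · rw [h.LT, h.LT, hzT]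
        split_ifs with h4
        · rw [h4, hzH]; ring
        · ring
      · rw [h.LH, h.LH, hzH]
        split_ifs with h4
        · rw [h4, hzT]; ring
        · ring
    rw [h3, pfT_gram _ (h.L_antisymm _) (h.L_self _), h1, Matrix.det_diagonal, h.prod]
    simp_rw [hzT, hzH, mul_one]
    ring

/-- the matrix of a colouring acts -/
theorem Half.conj {R : Type*} [CommRing R] (c : E → Fin d) (x : E → R) :
    WW inc R c * Lm τ inc hT hH x * (WW inc R c).transpose =
      Bg τ η (fun a e => if a = c e then x e else 0) := by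
  classical
  ext s t
  have h1 : (WW inc R c * Lm τ inc hT hH x * (WW inc R c).transpose) s t =
      ∑ s', ∑ t', WW inc R c s s' * (Lm τ inc hT hH x s' t' * WW inc R c t t') := by
    rw [Matrix.mul_apply]
    simp_rw [Matrix.mul_apply, Matrix.transpose_apply, sum_mul]
    rw [sum_comm]
    simp_rw [mul_assoc]
  rw [h1, h.sum]
  simp_rw [h.LT, h.LH]
  simp only [ite_mul, mul_ite, zero_mul, mul_zero, sum_ite_eq', mem_univ, if_true]
  have hWT : ∀ (s : TT d n) e, WW inc R c s (hT e) = if s.2 = τ e ∧ s.1 = c e then 1 else 0 := by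
    intro s e
    unfold WW
    rw [Matrix.of_apply, h.Te, h.T2]
  have hWH : ∀ (s : TT d n) e, WW inc R c s (hH e) = if s.2 = η e ∧ s.1 = c e then 1 else 0 := by
    intro s e
    unfold WW
    rw [Matrix.of_apply, h.He, h.H2]
  simp_rw [hWT, hWH]
  unfold Bg
  rw [Matrix.of_apply]
  unfold gen
  rw [Matrix.of_apply]
  by_cases hst : s.1 = t.1
  · rw [if_pos hst]
    refine sum_congr rfl fun e _ => ?_
    rw [← hst]
    by_cases hc : s.1 = c e
    · simp only [hc, and_true, if_true]
      have e1 : (if s.2 = τ e then (1 : R) else 0) * (x e * if t.2 = η e then 1 else 0) =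
          if τ e = s.2 ∧ η e = t.2 then x e else 0 := by
        by_cases h2 : s.2 = τ e
        · by_cases h3 : t.2 = η e
          · rw [if_pos h2, if_pos h3, if_pos ⟨h2.symm, h3.symm⟩]; ring
          · have h4 : ¬ (τ e = s.2 ∧ η e = t.2) := fun h0 => h3 h0.2.symm
            rw [if_neg h3, if_neg h4, mul_zero, mul_zero]
        · have h4 : ¬ (τ e = s.2 ∧ η e = t.2) := fun h0 => h2 h0.1.symm
          rw [if_neg h2, if_neg h4, zero_mul]
      have e2 : (if s.2 = η e then (1 : R) else 0) * (-x e * if t.2 = τ e then 1 else 0) =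
          - if τ e = t.2 ∧ η e = s.2 then x e else 0 := by
        by_cases h2 : s.2 = η e
        · by_cases h3 : t.2 = τ e
          · rw [if_pos h2, if_pos h3, if_pos ⟨h3.symm, h2.symm⟩]; ring
          · have h4 : ¬ (τ e = t.2 ∧ η e = s.2) := fun h0 => h3 h0.1.symm
            rw [if_neg h3, if_neg h4, mul_zero, mul_zero, neg_zero]
        · have h4 : ¬ (τ e = t.2 ∧ η e = s.2) := fun h0 => h2 h0.2.symm
          rw [if_neg h2, if_neg h4, zero_mul, neg_zero]
      rw [sub_eq_add_neg, ← e1, ← e2]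
    · simp [hc]
  · rw [if_neg hst]
    refine sum_eq_zero fun e _ => ?_
    by_cases hc : s.1 = c e
    · have hc2 : ¬ t.1 = c e := fun h0 => hst (hc.trans h0.symm)
      simp [hc2]
    · simp [hc]

end Lm

theorem main : S_CNT := by
  classical
  intro n d E _ τ η inc h1 h2 h3
  obtain ⟨hT, hH, h⟩ := exists_half τ η inc h1 h2 h3
  obtain ⟨ε, hε, hL⟩ := h.pf_L
  -- the square
  set q : MvPolynomial E ℤ := pf n (SM ℤ τ η) with hq
  have hSM : SM ℤ τ η = gen τ η (fun e => (X e : MvPolynomial E ℤ)) := rfl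
  set Q : MvPolynomial E ℤ := pfT (Bg τ η (fun (_ : Fin d) e => (X e : MvPolynomial E ℤ)))
    with hQ
  have hsq : Q ^ 2 = (q ^ d) ^ 2 := by
    rw [hQ, pfT_sq _ (Bg_antisymm τ η _) (Bg_self τ η _), det_Bg]
    simp_rw [← pf_gen_sq, ← hSM, ← hq]
    rw [prod_const, card_univ, Fintype.card_fin, ← pow_mul, ← pow_mul, mul_comm]
  have hQq : ∃ δ : ℤ, (δ = 1 ∨ δ = -1) ∧ Q = C δ * q ^ d := by
    have h4 : (Q - q ^ d) * (Q + q ^ d) = 0 := by linear_combination hsq
    rcases mul_eq_zero.1 h4 with h5 | h5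
    · refine ⟨1, Or.inl rfl, ?_⟩
      rw [C_1, one_mul]
      linear_combination h5
    · refine ⟨-1, Or.inr rfl, ?_⟩
      rw [C_neg, C_1]
      linear_combination h5
  obtain ⟨δ, hδ, hQδ⟩ := hQq
  -- the coefficient
  have hcf : coeff (oneE E) Q = ε * Pool.Agent.W426.LE.NN (Equiv.refl (Fin d)) inc := by
    obtain ⟨l, hl⟩ : ∃ l : Fin d → ℤ, ∀ a, l a = 1 := ⟨fun _ => 1, fun _ => rfl⟩
    have h4 : Q = aeval (fun p : E × Fin d => (C (l p.2) * X p.1 : MvPolynomial E ℤ))
        (pfT (Bg τ η (fun a e => (X (e, a) : MvPolynomial (E × Fin d) ℤ)))) := by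
      have h5 := pfT_map (Bg τ η (fun a e => (X (e, a) : MvPolynomial (E × Fin d) ℤ)))
        (aeval (fun p : E × Fin d => (C (l p.2) * X p.1 : MvPolynomial E ℤ))).toRingHom
      rw [Bg_map] at h5
      refine Eq.trans ?_ h5.symm
      rw [hQ]
      congr 2
      funext a e
      simp [hl]
    rw [h4, expand_colourings l]
    unfold Pool.Agent.W426.LE.NN
    rw [Finset.mul_sum]
    refine sum_congr rfl fun c _ => ?_
    have h6 : aeval (fun p : E × Fin d => (if p.2 = c p.1 then
          C (l p.2) * X p.1 else 0 : MvPolynomial E ℤ))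
          (pfT (Bg τ η (fun a e => (X (e, a) : MvPolynomial (E × Fin d) ℤ)))) =
        pfT (Bg τ η (fun a e => if a = c e then (X e : MvPolynomial E ℤ) else 0)) := by
      have h5 := pfT_map (Bg τ η (fun a e => (X (e, a) : MvPolynomial (E × Fin d) ℤ)))
        (aeval (fun p : E × Fin d => (if p.2 = c p.1 then
          C (l p.2) * X p.1 else 0 : MvPolynomial E ℤ))).toRingHom
      rw [Bg_map] at h5
      refine Eq.trans h5 ?_
      congr 2
      funext a e
      simp only [AlgHom.toRingHom_eq_coe, RingHom.coe_coe, aeval_X]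
      by_cases h7 : a = c e
      · rw [if_pos h7, if_pos h7, hl, C_1, one_mul]
      · rw [if_neg h7, if_neg h7]
    rw [h6, ← h.conj, pfT_gram _ (h.L_antisymm _) (h.L_self _), det_WW, hL]
    have h8 : (∏ v : Fin n, (((eps (fun j => c (inc v j)) : ℤ)) : MvPolynomial E ℤ)) *
        ((ε : MvPolynomial E ℤ) * ∏ e, X e) =
        monomial (oneE E) (ε * ∏ v : Fin n, eps (fun j => c (inc v j))) := by
      rw [monomial_eq, Finsupp.prod_fintype _ _ (fun i => pow_zero _)]
      have h9 : ∏ i : E, (X i : MvPolynomial E ℤ) ^ (oneE E i) = ∏ i, X i :=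
        prod_congr rfl fun i _ => pow_one _
      rw [h9, C_mul, map_prod C]
      have h10 : ∀ m : ℤ, ((m : ℤ) : MvPolynomial E ℤ) = C m := fun m => by simp
      simp_rw [h10]
      ring
    rw [h8, coeff_monomial, if_pos rfl]
    congr 1
    exact prod_congr rfl fun v _ => eps_eq _
  have hcc : coeff (oneE E) Q = δ * cc ℤ d τ η := by
    rw [hQδ, coeff_C_mul]
    rfl
  refine ⟨ε * δ, ?_, ?_⟩
  · rcases hε with rfl | rfl <;> rcases hδ with rfl | rfl <;> norm_num
  · have h4 : ε * ε = 1 := by rcases hε with rfl | rfl <;> norm_num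
    have h5 := hcf.symm.trans hcc
    calc Pool.Agent.W426.LE.NN (Equiv.refl (Fin d)) inc =
        ε * ε * Pool.Agent.W426.LE.NN (Equiv.refl (Fin d)) inc := by rw [h4, one_mul]
      _ = ε * (ε * Pool.Agent.W426.LE.NN (Equiv.refl (Fin d)) inc) := by ring
      _ = ε * (δ * cc ℤ d τ η) := by rw [h5]
      _ = _ := by ring

end Pool.Agent.Y819.ZF.CntF
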