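import Pool.Agent.Y51.ZG.Pf
import Pool.Agent.Y51.ZG.Coef
import Pool.Agent.Y51.ZG.Hom
import Pool.Agent.Y153.ZF.Trf
import Pool.Agent.Y438.ZF.Alt
import Pool.Agent.Y438.ZF.Deg
import Pool.Agent.Y819.ZF.CntF
import Pool.Agent.Y726.ZF.Blk
import Pool.Agent.Y429.ZF.LAG
import Pool.Agent.Y429.ZF.CHAIN
import Pool.Agent.Y429.ZF.SUB
import Pool.Agent.Y592.ZF.GC
import Pool.Agent.Y972.ZF.Split
import Pool.Agent.Y972.ZF.Idb
import Pool.Agent.Y812.ZF.Small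
import Pool.Agent.Y812.ZF.Ex
import Pool.Agent.Y819.ZF.Asm

set_option autoImplicit false
set_option linter.all false

namespace Pool.Agent.Y819.ZF.All

open Pool.Agent.Y819.ZF

theorem sTRF : S_TRF := Pool.Agent.Y153.ZF.main Pool.Agent.Y51.ZG.coef_main Pool.Agent.Y51.ZG.hom_main
theorem sIDB : S_IDB := Pool.Agent.Y972.ZF.main Pool.Agent.Y972.ZF.split
  (Pool.Agent.Y972.ZF.vswap Pool.Agent.Y972.ZF.split) Pool.Agent.Y429.ZF.LAG.main Pool.Agent.Y438.ZF.deg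
theorem sREL : S_REL := Rel.rel Pool.Agent.Y51.ZG.main sTRF Pool.Agent.Y438.ZF.alt Pool.Agent.Y726.ZF.blk
  Pool.Agent.Y726.ZF.kz Pool.Agent.Y438.ZF.deg sIDB
theorem sGC : S_GC := Pool.Agent.Y592.ZF.main Pool.Agent.Y819.ZF.CntF.main
theorem sSMALL : S_SMALL := Pool.Agent.Y812.ZF.main Pool.Agent.Y429.ZF.SUB.main

end Pool.Agent.Y819.ZF.All
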