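import Pool.Agent.Y819.ZF.StmS

/-!
# The incidence structure of a 1-factorized multigraph (from helper925's proof of `S_FACB`)
-/

set_option autoImplicit false
set_option linter.all false

namespace Pool.Agent.Y819.ZF

open Pool.Agent.TH378.LC

open Classical in
theorem inc_of_fac {d : ℕ} {V : Type} [Fintype V] (μ : V → V → ℕ) (F : Fin d → V → V) (hF : IsFac μ F) :
    ∃ (E : Type) (_ : Fintype E) (inc : V → Fin d → E), (∀ v, Function.Injective (inc v)) ∧
      (∀ e, Nat.card {q : V × Fin d // inc q.1 q.2 = e} = 2) ∧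
      Pool.Agent.W426.LE.NN (Equiv.refl (Fin d)) inc = AT F ∧
      (fun v w => Nat.card {e : E // v ≠ w ∧ (∃ i, inc v i = e) ∧ ∃ j, inc w j = e}) = μ := by
  let idx : V → ℕ := fun v => (Finite.equivFin V v : ℕ)
  have hidx : Function.Injective idx := fun a b h => (Finite.equivFin V).injective (Fin.ext h)
  let inc : V → Fin d → BE idx F := binc idx F hidx hF.inv hF.ne
  have hpos : ∀ (v : V) (i : Fin d) (h : idx v < idx (F i v)), inc v i = ⟨(i, v), h⟩ :=
    fun v i h => binc_pos idx F hidx hF.inv hF.ne h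
  have hneg : ∀ (v : V) (i : Fin d) (h : ¬ idx v < idx (F i v)),
      inc v i = ⟨(i, F i v), idx_lt idx F hidx hF.inv hF.ne h⟩ :=
    fun v i h => binc_neg idx F hidx hF.inv hF.ne h
  have hf : ∀ (v : V) (i : Fin d), inc (F i v) i = inc v i :=
    fun v i => binc_f idx F hidx hF.inv hF.ne v i
  have hlab : ∀ v i, (inc v i).1.1 = i := by
    intro v i
    by_cases h : idx v < idx (F i v)
    · rw [hpos v i h]
    · rw [hneg v i h]
  have hinj : ∀ v, Function.Injective (inc v) := fun v i j h => by
    rw [← hlab v i, ← hlab v j, h]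
  have hself : ∀ e : BE idx F, inc e.1.2 e.1.1 = e := fun e => hpos _ _ e.2
  have hinc : ∀ (w : V) (j : Fin d) (e : BE idx F),
      inc w j = e ↔ j = e.1.1 ∧ (w = e.1.2 ∨ w = F e.1.1 e.1.2) := by
    intro w j e
    constructor
    · rintro rfl
      refine ⟨(hlab w j).symm, ?_⟩
      by_cases h : idx w < idx (F j w)
      · left
        rw [hpos w j h]
      · right
        rw [hneg w j h]
        exact (hF.inv j w).symm
    · rintro ⟨rfl, rfl | rfl⟩
      · exact hself e
      · rw [hf]
        exact hself e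
  have hb : ∀ e : BE idx F, Nat.card {q : V × Fin d // inc q.1 q.2 = e} = 2 := by
    intro e
    have h2 : ∀ q : V × Fin d, inc q.1 q.2 = e ↔
        q ∈ ({(e.1.2, e.1.1), (F e.1.1 e.1.2, e.1.1)} : Finset (V × Fin d)) := by
      intro q
      rw [hinc, Finset.mem_insert, Finset.mem_singleton, Prod.ext_iff, Prod.ext_iff]
      tauto
    rw [Nat.card_congr (Equiv.subtypeEquivRight h2), Nat.card_eq_fintype_card, Fintype.card_coe,
      Finset.card_pair]
    intro h
    exact hF.ne _ _ (Prod.ext_iff.1 h).1.symm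
  have hN := NN_binc idx F hidx hF.inv hF.ne
  have h4 : (fun v w => Nat.card {e : BE idx F // v ≠ w ∧ (∃ i, inc v i = e) ∧
      ∃ j, inc w j = e}) = μ := by
    funext v w
    rw [← hF.mult v w]
    by_cases hvw : v = w
    · subst hvw
      have e1 : IsEmpty {e : BE idx F // v ≠ v ∧ (∃ i, inc v i = e) ∧ ∃ j, inc v j = e} :=
        ⟨fun e => e.2.1 rfl⟩
      have e2 : IsEmpty {i // F i v = v} := ⟨fun i => hF.ne _ _ i.2⟩
      rw [Nat.card_of_isEmpty, Nat.card_of_isEmpty]
    · refine Nat.card_congr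
        { toFun := fun e => ⟨e.1.1.1, ?_⟩
          invFun := fun i => ⟨inc v i.1, hvw, ⟨i.1, rfl⟩, ⟨i.1, ?_⟩⟩
          left_inv := ?_
          right_inv := ?_ }
      · obtain ⟨i, hi⟩ := e.2.2.1
        obtain ⟨j, hj⟩ := e.2.2.2
        obtain ⟨-, hv⟩ := (hinc v i e.1).1 hi
        obtain ⟨-, hw⟩ := (hinc w j e.1).1 hj
        show F e.1.1.1 v = w
        rcases hv with hv | hv <;> rcases hw with hw | hw
        · exact absurd (hv.trans hw.symm) hvw
        · exact (congrArg (F e.1.1.1) hv).trans hw.symm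
        · exact ((congrArg (F e.1.1.1) hv).trans (hF.inv _ _)).trans hw.symm
        · exact absurd (hv.trans hw.symm) hvw
      · have h5 := hf v i.1
        rw [i.2] at h5
        exact h5
      · rintro ⟨e, he, ⟨i, hi⟩, hj⟩
        apply Subtype.ext
        show inc v e.1.1 = e
        obtain ⟨rfl, -⟩ := (hinc v i e).1 hi
        exact hi
      · rintro ⟨i, hi⟩
        apply Subtype.ext
        exact hlab v i
  exact ⟨BE idx F, inferInstance, inc, hinj, hb, hN, h4⟩

end Pool.Agent.Y819.ZF
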