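import Pool.Agent.Y819.ZF.StmP

/-!
# Project ZF: two forcing processes in which every chain moves at most once
-/

set_option autoImplicit false

namespace Pool.Agent.Y819.ZF.Period

open Finset Pool.Agent.H604R2.LEC Pool.Agent.Y819.ZF

/-- the ends of the chains after `t` moves -/
def hd {V : Type} {f : ℕ} (H : Fin f → V) (U : ℕ → V) (t : ℕ) : Fin f → V :=
  fun v => if v.val < t then U v.val else H v

theorem forces_once {V : Type} [DecidableEq V] {f : ℕ} (μ : V → V → ℕ) (H : Fin f → V) (U : ℕ → V)
    (r : ℕ) (hrf : r ≤ f) (hU : ∀ s t, s < r → t < r → U s = U t → s = t)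
    (h0 : ∀ c : Fin f, c.val < r → μ (H c) (U c.val) = 0)
    (h1 : ∀ (c : Fin f) (s : ℕ), c.val < s → s < r → μ (H c) (U s) = 1) :
    ∀ j t : ℕ, t + j = r → ForcesM μ ((Ico t r).image U) (hd H U t)
      (fun e => (if t ≤ e.1.1.val ∧ e.1.1.val < r then μ (H e.1.1) (H e.1.2) else 0) +
        (if t ≤ e.1.2.val ∧ e.1.2.val < r then μ (U e.1.1.val) (H e.1.2) else 0) +
        μ (hd H U r e.1.1) (hd H U r e.1.2)) := by
  intro j
  induction j with
  | zero =>
    intro t ht
    have ht' : t = r := by omega
    subst ht'
    rw [Ico_self, image_empty]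
    refine Eq.mp (congrArg _ ?_) (ForcesM.done (μ := μ) (hd H U t))
    funext e
    rw [if_neg (by omega), if_neg (by omega), zero_add, zero_add]
  | succ j ih =>
    intro t ht
    have htr : t < r := by omega
    obtain ⟨c, hc⟩ : ∃ c : Fin f, c.val = t := ⟨⟨t, by omega⟩, rfl⟩
    have hdc : hd H U t c = H c := by
      unfold hd
      rw [if_neg (by omega)]
    have key := ih (t + 1) (by omega)
    have hZ : ((Ico t r).image U).erase (U t) = (Ico (t + 1) r).image U := by
      ext z
      rw [mem_erase, mem_image, mem_image]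
      constructor
      · rintro ⟨hz, s, hs, rfl⟩
        rw [mem_Ico] at hs
        refine ⟨s, ?_, rfl⟩
        rw [mem_Ico]
        have : s ≠ t := fun h => hz (by rw [h])
        omega
      · rintro ⟨s, hs, rfl⟩
        rw [mem_Ico] at hs
        refine ⟨fun h => ?_, s, ?_, rfl⟩
        · have := hU s t (by omega) htr h
          omega
        · rw [mem_Ico]
          omega
    have hup : Function.update (hd H U t) c (U t) = hd H U (t + 1) := by
      funext b
      by_cases hb : b = c
      · rw [hb, Function.update_self]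
        unfold hd
        rw [if_pos (by omega), hc]
      · rw [Function.update_of_ne hb]
        have : b.val ≠ t := fun h => hb (Fin.ext (by omega))
        unfold hd
        by_cases hbt : b.val < t
        · rw [if_pos hbt, if_pos (by omega)]
        · rw [if_neg hbt, if_neg (by omega)]
    have h2 := ForcesM.step (μ := μ) ((Ico t r).image U) (hd H U t) c (U t) _
      (by
        rw [mem_image]
        exact ⟨t, by rw [mem_Ico]; omega, rfl⟩)
      (by
        rw [hdc]
        have := h0 c (by omega)
        rwa [hc] at this)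
      (by
        intro z hz hzu
        rw [mem_image] at hz
        obtain ⟨s, hs, rfl⟩ := hz
        rw [mem_Ico] at hs
        have : s ≠ t := fun h => hzu (by rw [h])
        rw [hdc]
        exact h1 c s (by omega) hs.2)
      (by
        rw [hZ, hup]
        exact key)
    refine Eq.mp (congrArg _ ?_) h2
    funext e
    have he : e.1.1.val < e.1.2.val := e.2
    by_cases hA : e.1.1 = c
    · have hA' : e.1.1.val = t := by rw [hA, hc]
      have e1 : hd H U t e.1.1 = H e.1.1 := if_neg (by omega)
      have e2 : hd H U t e.1.2 = H e.1.2 := if_neg (by omega)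
      have e3 : (t ≤ e.1.1.val ∧ e.1.1.val < r) := by omega
      have e4 : ¬ (t + 1 ≤ e.1.1.val ∧ e.1.1.val < r) := by omega
      have e5 : (t + 1 ≤ e.1.2.val ∧ e.1.2.val < r) ↔ (t ≤ e.1.2.val ∧ e.1.2.val < r) := by omega
      rw [if_pos (Or.inl hA), e1, e2, if_neg e4, if_pos e3, if_congr e5 rfl rfl]
      ring
    · have hA' : e.1.1.val ≠ t := fun h => hA (Fin.ext (by omega))
      by_cases hB : e.1.2 = c
      · have hB' : e.1.2.val = t := by rw [hB, hc]
        have e1 : hd H U t e.1.1 = U e.1.1.val := if_pos (by omega)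
        have e2 : hd H U t e.1.2 = H e.1.2 := if_neg (by omega)
        have e3 : ¬ (t + 1 ≤ e.1.1.val ∧ e.1.1.val < r) := by omega
        have e4 : ¬ (t ≤ e.1.1.val ∧ e.1.1.val < r) := by omega
        have e5 : ¬ (t + 1 ≤ e.1.2.val ∧ e.1.2.val < r) := by omega
        have e6 : t ≤ e.1.2.val ∧ e.1.2.val < r := by omega
        rw [if_pos (Or.inr hB), e1, e2, if_neg e3, if_neg e4, if_neg e5, if_pos e6]
        ring
      · have hB' : e.1.2.val ≠ t := fun h => hB (Fin.ext (by omega))
        have hAB : ¬ (e.1.1 = c ∨ e.1.2 = c) := by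
          rintro (h | h)
          · exact hA h
          · exact hB h
        rw [if_neg hAB]
        have e1 : (t + 1 ≤ e.1.1.val ∧ e.1.1.val < r) ↔ (t ≤ e.1.1.val ∧ e.1.1.val < r) := by omega
        have e2 : (t + 1 ≤ e.1.2.val ∧ e.1.2.val < r) ↔ (t ≤ e.1.2.val ∧ e.1.2.val < r) := by omega
        rw [if_congr e1 rfl rfl, if_congr e2 rfl rfl, add_zero]

/-- the complement of the power of the cycle -/
def gN (n k x y : ℕ) : ℕ :=
  if (k < y - x ∧ y - x + k < n) ∨ (k < x - y ∧ x - y + k < n) then 1 else 0

/-- the bipartite graph between two such complements -/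
def bN (p k x y : ℕ) : ℕ :=
  if (x < k ∧ k ≤ y ∧ ((k + 2 ≤ y - x + p ∧ y - x < k) ∨ (2 * k + 2 ≤ y - x + p ∧ y - x < 2 * k))) ∨
    (y < k ∧ k ≤ x ∧ ((k + 2 ≤ x - y + p ∧ x - y < k) ∨ (2 * k + 2 ≤ x - y + p ∧ x - y < 2 * k)))
  then 1 else 0

theorem gN_symm (n k x y : ℕ) : gN n k x y = gN n k y x := by
  unfold gN
  exact if_congr Or.comm rfl rfl

theorem bN_symm (p k x y : ℕ) : bN p k x y = bN p k y x := by
  unfold bN
  exact if_congr Or.comm rfl rfl

theorem gN_one {n k x y : ℕ} (h : (k < y - x ∧ y - x + k < n) ∨ (k < x - y ∧ x - y + k < n)) :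
    gN n k x y = 1 := if_pos h

theorem gN_zero {n k x y : ℕ} (h : ¬ ((k < y - x ∧ y - x + k < n) ∨ (k < x - y ∧ x - y + k < n))) :
    gN n k x y = 0 := if_neg h

theorem natA (p r k n x y : ℕ) (hr : r + 1 = p) (hrk : r ≤ k) (hn : n = r + 2 * k) (hxy : x < y)
    (hy : y < 2 * k) :
    (if x < r then gN n k (if x < k then k + x else x - k) (if y < k then k + y else y - k) else 0) +
    (if y < r then gN n k (2 * k + x) (if y < k then k + y else y - k) else 0) +
    gN n k (if x < r then 2 * k + x else if x < k then k + x else x - k)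
      (if y < r then 2 * k + y else if y < k then k + y else y - k) = bN p k x y := by
  subst hr hn
  by_cases h1 : x < r
  · have h2 : x < k := by omega
    by_cases h3 : y < r
    · have h4 : y < k := by omega
      simp only [h1, h2, h3, h4, if_true]
      unfold gN bN
      split_ifs <;> omega
    · by_cases h4 : y < k
      · simp only [h1, h2, h3, h4, if_true, if_false]
        unfold gN bN
        split_ifs <;> omega
      · simp only [h1, h2, h3, h4, if_true, if_false]
        unfold gN bN
        split_ifs <;> omega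
  · have h3 : ¬ y < r := by omega
    by_cases h2 : x < k
    · by_cases h4 : y < k
      · simp only [h1, h2, h3, h4, if_true, if_false]
        unfold gN bN
        split_ifs <;> omega
      · simp only [h1, h2, h3, h4, if_true, if_false]
        unfold gN bN
        split_ifs <;> omega
    · have h4 : ¬ y < k := by omega
      simp only [h1, h2, h3, h4, if_false]
      unfold gN bN
      split_ifs <;> omega

theorem natB (p r k f k' x y : ℕ) (hr : r + 1 = p) (hrk : r ≤ k) (hf : f + r = 2 * k)
    (hk' : k' + r = k) (hxy : x < y) (hy : y < f) :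
    (if x < r then bN p k x y else 0) + (if y < r then bN p k (f + x) y else 0) +
    bN p k (if x < r then f + x else x) (if y < r then f + y else y) = gN f k' x y := by
  subst hr
  by_cases h1 : x < r
  · by_cases h3 : y < r
    · simp only [h1, h3, if_true]
      unfold gN bN
      split_ifs <;> omega
    · simp only [h1, h3, if_true, if_false]
      unfold gN bN
      split_ifs <;> omega
  · have h3 : ¬ y < r := by omega
    simp only [h1, h3, if_false]
    unfold gN bN
    split_ifs <;> omega

/-- the forced vertices -/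
def UU (base n : ℕ) (hn : 0 < n) : ℕ → Fin n := fun t =>
  if h : base + t < n then ⟨base + t, h⟩ else ⟨0, hn⟩

theorem UU_val (base n : ℕ) (hn : 0 < n) (t : ℕ) (h : base + t < n) :
    (UU base n hn t).val = base + t := by
  unfold UU
  rw [dif_pos h]

/-- the first ends of the chains -/
def HA (k n : ℕ) (hn : 2 * k ≤ n) : Fin (2 * k) → Fin n := fun v =>
  ⟨if v.val < k then k + v.val else v.val - k, by
    have := v.2
    split_ifs <;> omega⟩

theorem HA_inj (k n : ℕ) (hn : 2 * k ≤ n) : Function.Injective (HA k n hn) := by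
  intro a b hab
  have h := congrArg Fin.val hab
  unfold HA at h
  simp only at h
  apply Fin.ext
  have ha := a.2
  have hb := b.2
  split_ifs at h <;> omega

theorem set_eq (base r n f : ℕ) (hn0 : 0 < n) (hn : n = base + r) (H : Fin f → Fin n)
    (hH : ∀ v : Fin n, (∃ c, H c = v) ↔ v.val < base) :
    (Ico 0 r).image (UU base n hn0) = univ.filter fun v => ∀ c, H c ≠ v := by
  ext v
  rw [mem_image, mem_filter]
  constructor
  · rintro ⟨s, hs, rfl⟩
    rw [mem_Ico] at hs
    refine ⟨mem_univ _, fun c hc => ?_⟩
    have h1 := (hH _).1 ⟨c, hc⟩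
    rw [UU_val _ _ _ _ (by omega)] at h1
    omega
  · rintro ⟨-, h⟩
    have h1 : ¬ v.val < base := fun h2 => by
      obtain ⟨c, hc⟩ := (hH v).2 h2
      exact h c hc
    have h3 := v.2
    refine ⟨v.val - base, ?_, ?_⟩
    · rw [mem_Ico]
      omega
    · apply Fin.ext
      rw [UU_val _ _ _ _ (by omega)]
      omega

theorem forcesA (p r k n : ℕ) (hr : r + 1 = p) (h1r : 1 ≤ r) (hrk : r ≤ k) (hn : n = r + 2 * k)
    (hn' : 2 * k ≤ n) :
    ForcesM (fun a b : Fin n => gN n k a.val b.val) (univ.filter fun v => ∀ c, HA k n hn' c ≠ v)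
      (HA k n hn') (fun e => bN p k e.1.1.val e.1.2.val) := by
  have hn0 : 0 < n := by omega
  have hS := set_eq (2 * k) r n (2 * k) hn0 (by omega) (HA k n hn') (by
    intro v
    constructor
    · rintro ⟨c, rfl⟩
      have := c.2
      unfold HA
      simp only
      split_ifs <;> omega
    · intro hv
      by_cases h : v.val < k
      · refine ⟨⟨v.val + k, by omega⟩, Fin.ext ?_⟩
        unfold HA
        simp only
        rw [if_neg (by omega)]
        omega
      · refine ⟨⟨v.val - k, by omega⟩, Fin.ext ?_⟩
        unfold HA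
        simp only
        rw [if_pos (by omega)]
        omega)
  have h := forces_once (fun a b : Fin n => gN n k a.val b.val) (HA k n hn')
    (UU (2 * k) n hn0) r (by omega) (by
      intro s t hs ht hst
      have h1 := congrArg Fin.val hst
      rw [UU_val _ _ _ _ (by omega), UU_val _ _ _ _ (by omega)] at h1
      omega) (by
      intro c hc
      have e1 := UU_val (2 * k) n hn0 c.val (by omega)
      have e2 : (HA k n hn' c).val = k + c.val := if_pos (by omega)
      simp only [e1, e2]
      exact gN_zero (by omega)) (by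
      intro c s hc hs
      have e1 := UU_val (2 * k) n hn0 s (by omega)
      have e2 : (HA k n hn' c).val = k + c.val := if_pos (by omega)
      simp only [e1, e2]
      exact gN_one (by omega)) r 0 (by omega)
  have hhd : hd (HA k n hn') (UU (2 * k) n hn0) 0 = HA k n hn' := by
    funext v
    exact if_neg (by omega)
  rw [hS, hhd] at h
  refine Eq.mp (congrArg _ ?_) h
  funext e
  have he : e.1.1.val < e.1.2.val := e.2
  have he2 := e.1.2.2
  rw [← natA p r k n e.1.1.val e.1.2.val hr hrk hn he he2]
  have hHA : ∀ v : Fin (2 * k), (HA k n hn' v).val = if v.val < k then k + v.val else v.val - k :=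
    fun v => rfl
  have hfin : ∀ v : Fin (2 * k), (hd (HA k n hn') (UU (2 * k) n hn0) r v).val =
      if v.val < r then 2 * k + v.val else if v.val < k then k + v.val else v.val - k := by
    intro v
    unfold hd
    by_cases h3 : v.val < r
    · rw [if_pos h3, if_pos h3, UU_val _ _ _ _ (by omega)]
    · rw [if_neg h3, if_neg h3, hHA]
  simp only [hfin, hHA, Nat.zero_le, true_and]
  congr 2
  by_cases h3 : e.1.2.val < r
  · rw [if_pos h3, if_pos h3, UU_val _ _ _ _ (by omega)]
  · rw [if_neg h3, if_neg h3]

theorem forcesB (p r k f k' : ℕ) (hr : r + 1 = p) (h1r : 1 ≤ r) (hrk : r ≤ k) (hf : f + r = 2 * k)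
    (hk' : k' + r = k) (hf' : f ≤ 2 * k) :
    ForcesM (fun a b : Fin (2 * k) => bN p k a.val b.val)
      (univ.filter fun v => ∀ c : Fin f, Fin.castLE hf' c ≠ v)
      (fun c : Fin f => Fin.castLE hf' c) (fun e => gN f k' e.1.1.val e.1.2.val) := by
  have hn0 : 0 < 2 * k := by omega
  have hS := set_eq f r (2 * k) f hn0 (by omega) (fun c : Fin f => Fin.castLE hf' c) (by
    intro v
    constructor
    · rintro ⟨c, rfl⟩
      exact c.2
    · intro hv
      exact ⟨⟨v.val, hv⟩, rfl⟩)
  have h := forces_once (fun a b : Fin (2 * k) => bN p k a.val b.val)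
    (fun c : Fin f => Fin.castLE hf' c) (UU f (2 * k) hn0) r (by omega) (by
      intro s t hs ht hst
      have h1 := congrArg Fin.val hst
      rw [UU_val _ _ _ _ (by omega), UU_val _ _ _ _ (by omega)] at h1
      omega) (by
      intro c hc
      have e1 := UU_val f (2 * k) hn0 c.val (by omega)
      simp only [e1, Fin.val_castLE]
      unfold bN
      rw [if_neg (by omega)]) (by
      intro c s hc hs
      have e1 := UU_val f (2 * k) hn0 s (by omega)
      simp only [e1, Fin.val_castLE]
      unfold bN
      rw [if_pos (by omega)]) r 0 (by omega)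
  have hhd : hd (fun c : Fin f => Fin.castLE hf' c) (UU f (2 * k) hn0) 0 =
      fun c : Fin f => Fin.castLE hf' c := by
    funext v
    exact if_neg (by omega)
  rw [hS, hhd] at h
  refine Eq.mp (congrArg _ ?_) h
  funext e
  have he : e.1.1.val < e.1.2.val := e.2
  have he2 := e.1.2.2
  rw [← natB p r k f k' e.1.1.val e.1.2.val hr hrk hf hk' he he2]
  have hfin : ∀ v : Fin f, (hd (fun c : Fin f => Fin.castLE hf' c) (UU f (2 * k) hn0) r v).val =
      if v.val < r then f + v.val else v.val := by
    intro v
    unfold hd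
    by_cases h3 : v.val < r
    · rw [if_pos h3, if_pos h3, UU_val _ _ _ _ (by omega)]
    · rw [if_neg h3, if_neg h3]
      rfl
  simp only [hfin, Fin.val_castLE, Nat.zero_le, true_and]
  congr 2
  by_cases h3 : e.1.2.val < r
  · rw [if_pos h3, if_pos h3, UU_val _ _ _ _ (by omega)]
  · rw [if_neg h3, if_neg h3]

end Pool.Agent.Y819.ZF.Period
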