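import Pool.Agent.Y819.ZF.Cls

set_option autoImplicit false
set_option linter.all false

namespace Pool.Agent.Y819.ZF.Cls

open Finset Pool.Agent.H604R2.LEC Pool.Agent.Y819.ZF Pool.Agent.Y819.ZF.Rel

section
variable {V E : Type} [Fintype V] [Fintype E] {d : ℕ} (inc : V → Fin d → E)
  (hinj : ∀ v, Function.Injective (inc v))
  (h2 : ∀ e, Nat.card {q : V × Fin d // inc q.1 q.2 = e} = 2)

include hinj h2 in
open Classical in
theorem ends_card (e : E) : (univ.filter fun w => ∃ j, inc w j = e).card = 2 := by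
  have h3 := h2 e
  rw [Nat.card_eq_fintype_card, Fintype.card_subtype] at h3
  rw [← h3]
  symm
  refine Finset.card_bij (fun q _ => q.1) ?_ ?_ ?_
  · intro q hq
    rw [mem_filter] at hq ⊢
    exact ⟨mem_univ _, q.2, hq.2⟩
  · rintro ⟨v, i⟩ hq ⟨w, j⟩ hq' h
    rw [mem_filter] at hq hq'
    simp only at h hq hq'
    subst h
    exact Prod.ext rfl (hinj v (hq.2.trans hq'.2.symm))
  · intro w hw
    rw [mem_filter] at hw
    obtain ⟨_, j, hj⟩ := hw
    exact ⟨(w, j), mem_filter.2 ⟨mem_univ _, hj⟩, rfl⟩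

include hinj h2 in
theorem regM_inc : RegM d (fun v w => Nat.card {e : E // v ≠ w ∧ (∃ i, inc v i = e) ∧ ∃ j, inc w j = e}) := by
  classical
  refine ⟨inferInstance, ?_, ?_, ?_⟩
  · intro v w
    refine Nat.card_congr (Equiv.subtypeEquivRight fun e => ?_)
    constructor
    · rintro ⟨h3, h4, h5⟩
      exact ⟨h3.symm, h5, h4⟩
    · rintro ⟨h3, h4, h5⟩
      exact ⟨h3.symm, h5, h4⟩
  · intro v
    have : IsEmpty {e : E // v ≠ v ∧ (∃ i, inc v i = e) ∧ ∃ j, inc v j = e} := ⟨fun x => x.2.1 rfl⟩
    exact Nat.card_of_isEmpty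
  · intro v
    rw [finsum_eq_sum_of_fintype]
    have h3 : ∀ w, Nat.card {e : E // v ≠ w ∧ (∃ i, inc v i = e) ∧ ∃ j, inc w j = e} =
        ∑ e : E, if v ≠ w ∧ (∃ i, inc v i = e) ∧ ∃ j, inc w j = e then 1 else 0 := by
      intro w
      rw [Nat.card_eq_fintype_card, Fintype.card_subtype, Finset.card_filter]
    simp_rw [h3]
    rw [Finset.sum_comm]
    have h4 : ∀ e : E, ∑ w : V, (if v ≠ w ∧ (∃ i, inc v i = e) ∧ ∃ j, inc w j = e then 1 else 0) =
        if ∃ i, inc v i = e then 1 else 0 := by
      intro e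
      by_cases hv : ∃ i, inc v i = e
      · rw [if_pos hv]
        have h5 := ends_card inc hinj h2 e
        rw [← Finset.card_filter]
        have h6 : (univ.filter fun w => v ≠ w ∧ (∃ i, inc v i = e) ∧ ∃ j, inc w j = e) =
            (univ.filter fun w => ∃ j, inc w j = e).erase v := by
          ext w
          rw [mem_filter, mem_erase, mem_filter]
          constructor
          · rintro ⟨_, h7, _, h8⟩
            exact ⟨h7.symm, mem_univ _, h8⟩
          · rintro ⟨h7, _, h8⟩
            exact ⟨mem_univ _, h7.symm, hv, h8⟩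
        have h7 : v ∈ (univ.filter fun w => ∃ j, inc w j = e) := by
          rw [mem_filter]
          exact ⟨mem_univ _, hv⟩
        rw [h6, Finset.card_erase_of_mem h7]
        have h8 : (univ.filter fun w => ∃ j, inc w j = e).card = 2 := by
          rw [← h5]
        rw [h8]
      · rw [if_neg hv]
        apply Finset.sum_eq_zero
        intro w _
        rw [if_neg]
        exact fun h => hv h.2.1
    rw [Finset.sum_congr rfl fun e _ => h4 e, ← Finset.card_filter]
    have h5 : (univ.filter fun e => ∃ i, inc v i = e) = univ.image (inc v) := by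
      ext e
      simp
    rw [h5, Finset.card_image_of_injective _ (hinj v), Finset.card_univ, Fintype.card_fin]

end

end Pool.Agent.Y819.ZF.Cls
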