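import Pool.Agent.Y819.ZF.StmM
import Pool.Agent.Y819.ZF.Cls2

set_option autoImplicit false
set_option linter.all false

namespace Pool.Agent.Y819.ZF.RelM

open MvPolynomial Finset Pool.Agent.Helper929 Pool.Agent.H604R2.LEC Pool.Agent.Y819.ZF Pool.Agent.Y819.ZF.Rel
  Pool.Agent.Y819.ZF.Cls

def edM {n : ℕ} (μ : Fin n → Fin n → ℕ) : Ed n → ℕ := fun e => μ e.1.1 e.1.2

theorem PM_eq {n : ℕ} {K : Type} [CommRing K] (μ : Fin n → Fin n → ℕ) (s : Fin n → K) :
    PM μ s = ∏ x : ME (edM μ), (s (mτ _ x) - s (mη _ x)) := by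
  unfold PM
  rw [Fintype.prod_sigma]
  refine Finset.prod_congr rfl fun e _ => ?_
  have : ∀ i : Fin (edM μ e), s (mτ (edM μ) ⟨e, i⟩) - s (mη (edM μ) ⟨e, i⟩) = s e.1.1 - s e.1.2 :=
    fun _ => rfl
  rw [Finset.prod_congr rfl fun i _ => this i, Finset.prod_const, Finset.card_univ, Fintype.card_fin]
  rfl

theorem PM_congr {n : ℕ} {K : Type} [CommRing K] (μ ν : Fin n → Fin n → ℕ) (h : ∀ a b, μ a b = ν a b)
    (s : Fin n → K) : PM μ s = PM ν s := by
  have : μ = ν := by
    funext a b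
    exact h a b
  rw [this]

theorem PM_Z {n : ℕ} {K : Type} [CommRing K] (Z : Finset (Fin n)) (inst : ∀ a b, Decidable (a ∈ Z ∧ b ∈ Z))
    (s : Fin n → K) :
    PM (fun a b => if a ∈ Z ∧ b ∈ Z then 1 else 0) s = PR (fun a b => a ∈ Z ∧ b ∈ Z) s := by
  classical
  unfold PM PR
  rw [Finset.prod_filter]
  refine Finset.prod_congr rfl fun e _ => ?_
  by_cases h : e.1.1 ∈ Z ∧ e.1.2 ∈ Z
  · simp [h]
  · simp [h]

/-- the relation between polynomials -/
theorem rel_polyM (hI : S_IDBM) {z f : ℕ} (p : ℕ) [Fact p.Prime] (μ : Fin (z + f) → Fin (z + f) → ℕ)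
    (hs : ∀ v w, μ v w = μ w v) (h0 : ∀ v, μ v v = 0) (m : Ed f → ℕ)
    (hcod : ∀ v, degM μ (univ.image (Fin.castAdd f : Fin z → Fin (z + f))) (Fin.natAdd z) v = z - 1)
    (hF : ForcesM μ (univ.image (Fin.castAdd f : Fin z → Fin (z + f))) (Fin.natAdd z) m) :
    ∃ ε : ℤ, (ε = 1 ∨ ε = -1) ∧
      ∑ σ ∈ univ.filter (fun σ : Equiv.Perm (Fin (z + f)) =>
          ∀ v, v ∉ univ.image (Fin.castAdd f : Fin z → Fin (z + f)) → σ v = v),
        (((Equiv.Perm.sign σ : ℤˣ) : ℤ) : ZMod p) •
          PP (ZMod p) (fun e => σ (mτ (edM μ) e)) (fun e => σ (mη (edM μ) e)) =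
      (ε : ZMod p) • PP (ZMod p) (uτ z m) (uη z m) := by
  classical
  set Z := univ.image (Fin.castAdd f : Fin z → Fin (z + f)) with hZ
  have hZc : Z.card = z := by
    rw [hZ, Finset.card_image_of_injective _ (Fin.castAdd_injective _ _), Finset.card_univ,
      Fintype.card_fin]
  obtain ⟨ε, hε, hid⟩ := hI (z + f) f μ Z (Fin.natAdd z) m hs h0 (Fin.natAdd_injective _ _) (by
    intro c hc
    rw [hZ, mem_image] at hc
    obtain ⟨a, _, ha⟩ := hc
    have := congrArg Fin.val ha
    simp at this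
    omega) (by
    intro v _
    rw [hcod, hZc]) hF
  refine ⟨ε, hε, ?_⟩
  let K := FractionRing (MvPolynomial (Fin (z + f)) (ZMod p))
  have hinj : Function.Injective (algebraMap (MvPolynomial (Fin (z + f)) (ZMod p)) K) :=
    IsFractionRing.injective _ _
  apply hinj
  have h1 := hid K (fun v => algebraMap (MvPolynomial (Fin (z + f)) (ZMod p)) K (X v))
    (fun v w h => X_injective (hinj h))
  have hsm : ∀ (a : ℤ) (g : MvPolynomial (Fin (z + f)) (ZMod p)),
      algebraMap (MvPolynomial (Fin (z + f)) (ZMod p)) K ((a : ZMod p) • g) =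
        (a : K) * algebraMap (MvPolynomial (Fin (z + f)) (ZMod p)) K g := by
    intro a g
    rw [Algebra.smul_def, map_mul]
    simp
  rw [PM_Z] at h1
  rw [map_sum, hsm, PP_union, ← mul_assoc, ← h1]
  refine Finset.sum_congr rfl fun σ _ => ?_
  rw [hsm, PP_perm]
  congr 1
  rw [← PM_eq μ (fun v => algebraMap (MvPolynomial (Fin (z + f)) (ZMod p)) K (X (σ v)))]
  refine PM_congr _ _ ?_ _
  intro a b
  have ha : ∀ a, Cur Z (Fin.natAdd z : Fin f → Fin (z + f)) a := by
    intro a
    unfold Cur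
    induction a using Fin.addCases with
    | left a => exact Or.inl (mem_image_of_mem _ (mem_univ _))
    | right a => exact Or.inr ⟨a, rfl⟩
  exact (if_pos ⟨ha a, ha b⟩).symm

theorem rel_zM (hPF : S_PF) (hTRF : S_TRF) (hALT : S_ALT) (hBLK : S_BLK) (hKZ : S_KZ) (hDEG : S_DEGM)
    (hIDB : S_IDBM) (p : ℕ) [hp : Fact p.Prime] (hp2 : p ≠ 2) (z f : ℕ) (hpz : p = z + 1)
    (μ : Fin (z + f) → Fin (z + f) → ℕ) (hμ : RegM (p - 2) μ) (m : Ed f → ℕ)
    (hF : ForcesM μ (univ.image (Fin.castAdd f : Fin z → Fin (z + f))) (Fin.natAdd z) m)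
    (hcc : cc (ZMod p) (p - 2) (mτ m) (mη m) ≠ 0) :
    cc (ZMod p) (p - 2) (mτ (edM μ)) (mη (edM μ)) ≠ 0 := by
  classical
  intro h0
  have hodd : Odd p := hp.out.odd_of_ne_two hp2
  have hp3 : 3 ≤ p := by
    have := hp.out.two_le
    omega
  have hze : Even z := by
    obtain ⟨k, hk⟩ := hodd
    exact ⟨k, by omega⟩
  have hd : Odd (p - 2) := by
    obtain ⟨k, hk⟩ := hodd
    exact ⟨k - 1, by omega⟩
  have hz2 : z - 1 = p - 2 := by omega
  have hcod : ∀ v, degM μ (univ.image (Fin.castAdd f : Fin z → Fin (z + f))) (Fin.natAdd z) v = z - 1 := by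
    intro v
    rw [hz2, ← hμ.reg v, finsum_eq_sum_of_fintype]
    unfold degM
    refine Finset.sum_congr ?_ fun _ _ => rfl
    ext w
    rw [mem_filter]
    constructor
    · exact fun _ => mem_univ _
    · intro _
      refine ⟨mem_univ _, ?_⟩
      unfold Cur
      induction w using Fin.addCases with
      | left a => exact Or.inl (mem_image_of_mem _ (mem_univ _))
      | right a => exact Or.inr ⟨a, rfl⟩
  have hregG : Reg (p - 2) (mτ (edM μ)) (mη (edM μ)) := by
    apply reg_ME
    intro c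
    exact deg_nm μ hμ (Equiv.refl _) c
  have hZc : (univ.image (Fin.castAdd f : Fin z → Fin (z + f))).card = z := by
    rw [Finset.card_image_of_injective _ (Fin.castAdd_injective _ _), Finset.card_univ,
      Fintype.card_fin]
  have hdeg := hDEG (Fin (z + f)) f μ _ (Fin.natAdd z) m hμ.symm hμ.diag (Fin.natAdd_injective _ _) (by
    intro c hc
    rw [mem_image] at hc
    obtain ⟨a, _, ha⟩ := hc
    have := congrArg Fin.val ha
    simp at this
    omega) (by
    intro v _
    rw [hcod, hZc]) hF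
  have hregM : Reg (p - 2) (mτ m) (mη m) := by
    apply reg_ME
    intro c
    rw [← hz2, ← hcod (Fin.natAdd z c), ← hdeg c]
  have hregU : Reg (p - 2) (uτ z m) (uη z m) := by
    refine reg_union m ?_ hregM
    rw [← hz2]
    exact reg_K
  have hn : Even (z + f) := by
    have h1 := reg_card _ _ hregG
    have h2 : Even ((p - 2) * (z + f)) := ⟨_, by rw [← h1]; ring⟩
    rcases Nat.even_mul.1 h2 with h3 | h3
    · exact absurd h3 (Nat.not_even_iff_odd.2 hd)
    · exact h3
  have hfe : Even f := by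
    rcases Nat.even_add.1 hn with h
    exact h.1 hze
  have hcardG : Fintype.card (ME (edM μ)) = (p - 2) * ((z + f) / 2) := by
    have h1 := reg_card _ _ hregG
    obtain ⟨k, hk⟩ := hn
    have h2 : (z + f) / 2 = k := by omega
    rw [h2]
    have h3 : 2 * Fintype.card (ME (edM μ)) = 2 * ((p - 2) * k) := by
      rw [h1, hk]
      ring
    omega
  have hcardM : Fintype.card (ME m) = (p - 2) * (f / 2) := by
    have h1 := reg_card _ _ hregM
    obtain ⟨k, hk⟩ := hfe
    have h2 : f / 2 = k := by omega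
    rw [h2]
    have h3 : 2 * Fintype.card (ME m) = 2 * ((p - 2) * k) := by
      rw [h1]
      calc (p - 2) * f = (p - 2) * (k + k) := by rw [← hk]
        _ = 2 * ((p - 2) * k) := by ring
    omega
  obtain ⟨ε, hε, hrel⟩ := rel_polyM hIDB p μ hμ.symm hμ.diag m hcod hF
  set A := (Matrix.fromBlocks (skew (cJ p z)) 0 0 (skew (cJ p f))).submatrix finSumFinEquiv.symm
    finSumFinEquiv.symm with hA
  obtain ⟨hA1, hA2⟩ := blk_skew (skew (cJ p z)) (skew (cJ p f)) (skew_antisymm _) (skew_self _)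
    (skew_antisymm _) (skew_self _)
  obtain ⟨Λ, hΛ⟩ := hTRF p (z + f) hn A
  have h1 := congrArg Λ hrel
  rw [map_sum, map_smul, ← hΛ _ _ _ hregU] at h1
  have h2 : ∀ σ : Equiv.Perm (Fin (z + f)), Λ ((((Equiv.Perm.sign σ : ℤˣ) : ℤ) : ZMod p) •
      PP (ZMod p) (fun e => σ (mτ (edM μ) e)) (fun e => σ (mη (edM μ) e))) = 0 := by
    intro σ
    rw [map_smul, ← hΛ _ _ _ (reg_perm _ _ hregG σ), hPF p (z + f) _ _ _ A hA1 hA2 hcardG,
      hALT (ZMod p) (z + f) (p - 2) hd _ _ _ σ, h0]
    simp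
  rw [Finset.sum_eq_zero fun σ _ => h2 σ] at h1
  have h3 : DD p A (uτ z m) (uη z m) = DD p (skew (cJ p z)) (fun e : Ed z => e.1.1) (fun e : Ed z => e.1.2) *
      DD p (skew (cJ p f)) (mτ m) (mη m) := hBLK p z f (Ed z) (ME m) _ _ _ _ _ _
  rw [h3, hPF p f _ (mτ m) (mη m) _ (skew_antisymm _) (skew_self _) hcardM] at h1
  refine mul_ne_zero ?_ (mul_ne_zero (hKZ p z hze hpz) (mul_ne_zero hcc (cJ_pf_ne p hfe))) h1.symm
  rcases hε with h | h
  · rw [h]; simp
  · rw [h]; simp

/-- transport of a forcing process -/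
theorem forcesM_map {V W : Type} [DecidableEq V] [DecidableEq W] {f : ℕ} (e : V ≃ W) (μ : V → V → ℕ)
    (Z : Finset V) (h : Fin f → V) (m : Ed f → ℕ) (hF : ForcesM μ Z h m) :
    ForcesM (fun a b => μ (e.symm a) (e.symm b)) (Z.map e.toEmbedding) (fun c => e (h c)) m := by
  induction hF with
  | done h =>
    have h1 := ForcesM.done (μ := fun a b => μ (e.symm a) (e.symm b)) (fun c => e (h c))
    rw [Finset.map_empty]
    simpa using h1
  | step Z h c u m hu h0 h1 hm ih =>
    have h2 : (Z.map e.toEmbedding).erase (e u) = (Z.erase u).map e.toEmbedding := by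
      rw [Finset.map_erase]
      rfl
    have h3 : Function.update (fun c => e (h c)) c (e u) = fun c' => e (Function.update h c u c') := by
      funext c'
      by_cases hc : c' = c
      · subst hc
        rw [Function.update_self, Function.update_self]
      · rw [Function.update_of_ne hc, Function.update_of_ne hc]
    have h4 := ForcesM.step (μ := fun a b => μ (e.symm a) (e.symm b)) (Z.map e.toEmbedding)
      (fun c => e (h c)) c (e u) m
      (by
        rw [Finset.mem_map]
        exact ⟨u, hu, rfl⟩)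
      (by simpa using h0)
      (by
        intro z hz hzu
        rw [Finset.mem_map] at hz
        obtain ⟨z', hz', rfl⟩ := hz
        have h4 : μ (h c) z' = 1 := h1 z' hz' (fun h5 => hzu (by rw [h5]; rfl))
        simpa using h4)
      (by rw [h2, h3]; exact ih)
    simpa using h4

/-- the forcing construction -/
theorem ok_forcingM (hPF : S_PF) (hTRF : S_TRF) (hALT : S_ALT) (hBLK : S_BLK) (hKZ : S_KZ) (hDEG : S_DEGM)
    (hIDB : S_IDBM) (hNUM : S_NUM) (p : ℕ) [hp : Fact p.Prime] (hp2 : p ≠ 2)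
    (f : ℕ) (V : Type) [Fintype V] [DecidableEq V] (μ : V → V → ℕ) (hμ : RegM (p - 2) μ)
    (hV : Fintype.card V = p - 1 + f) (h : Fin f → V)
    (hinj : Function.Injective h) (m : Ed f → ℕ)
    (hF : ForcesM μ (univ.filter fun v => ∀ c, h c ≠ v) h m)
    (hcc : cc (ZMod p) (p - 2) (mτ m) (mη m) ≠ 0) : OK p V μ := by
  classical
  intro n e'
  have hn : n = p - 1 + f := by
    rw [← hV, Fintype.card_congr e', Fintype.card_fin]
  subst hn
  have hp2' := hp.out.two_le
  obtain ⟨e, he1, he2⟩ := Asm.exists_equiv hV h hinj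
  have hF' := forcesM_map e μ _ h m hF
  rw [he2] at hF'
  have he3 : (fun c => e (h c)) = Fin.natAdd (p - 1) := funext he1
  rw [he3] at hF'
  have h1 := rel_zM hPF hTRF hALT hBLK hKZ hDEG hIDB p hp2 (p - 1) f (by omega)
    (fun a b => μ (e.symm a) (e.symm b)) (regM_iso e μ hμ) m hF' hcc
  exact hNUM p (p - 2) V μ hμ.symm _ e e' h1

/-- simple graphs -/
theorem forces_simple {V : Type} [DecidableEq V] {f : ℕ} (F : SimpleGraph V)
    (Z : Finset V) (h : Fin f → V) (m : Ed f → ℕ) (hF : Forces F Z h m) :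
    Function.Injective h → (∀ c, h c ∉ Z) → ForcesM (ind Fᶜ) Z h m := by
  classical
  induction hF with
  | done h =>
    intro hinj _
    refine Eq.mp (congrArg _ ?_) (ForcesM.done (μ := ind Fᶜ) h)
    funext e
    have hne : h e.1.1 ≠ h e.1.2 := fun h1 => e.2.ne (hinj h1)
    unfold ind
    by_cases hA : F.Adj (h e.1.1) (h e.1.2)
    · rw [if_pos hA, if_neg]
      rw [SimpleGraph.compl_adj]
      exact fun h3 => h3.2 hA
    · rw [if_neg hA, if_pos]
      rw [SimpleGraph.compl_adj]
      exact ⟨hne, hA⟩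
  | step Z h c u m hu hadj huniq hm ih =>
    intro hinj hZ
    have hinj' : Function.Injective (Function.update h c u) := by
      intro a b hab
      by_cases ha : a = c <;> by_cases hb : b = c
      · rw [ha, hb]
      · rw [ha, Function.update_self, Function.update_of_ne hb] at hab
        exact absurd (hab ▸ hu) (hZ b)
      · rw [hb, Function.update_self, Function.update_of_ne ha] at hab
        exact absurd (hab ▸ hu) (hZ a)
      · rw [Function.update_of_ne ha, Function.update_of_ne hb] at hab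
        exact hinj hab
    have hZ' : ∀ c', Function.update h c u c' ∉ Z.erase u := by
      intro c'
      by_cases hcc : c' = c
      · rw [hcc, Function.update_self]
        exact notMem_erase u Z
      · rw [Function.update_of_ne hcc]
        exact fun hh => hZ c' (mem_of_mem_erase hh)
    have h1 := ForcesM.step (μ := ind Fᶜ) Z h c u m hu (by
      unfold ind
      rw [if_neg]
      rw [SimpleGraph.compl_adj]
      exact fun h3 => h3.2 hadj) (by
      intro z hz hzu
      unfold ind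
      rw [if_pos]
      rw [SimpleGraph.compl_adj]
      exact ⟨fun h3 => hZ c (h3 ▸ hz), fun h3 => hzu (huniq z hz h3)⟩) (ih hinj' hZ')
    refine Eq.mp (congrArg _ ?_) h1
    funext e
    refine congrArg (fun t => m e + t) ?_
    have hne : h e.1.1 ≠ h e.1.2 := fun h1 => e.2.ne (hinj h1)
    unfold ind
    by_cases hc : e.1.1 = c ∨ e.1.2 = c
    · rw [if_pos hc]
      by_cases hA : F.Adj (h e.1.1) (h e.1.2)
      · rw [if_neg (show ¬ ((e.1.1 = c ∨ e.1.2 = c) ∧ ¬ F.Adj (h e.1.1) (h e.1.2)) from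
          fun h3 => h3.2 hA), if_neg]
        rw [SimpleGraph.compl_adj]
        exact fun h3 => h3.2 hA
      · rw [if_pos (show ((e.1.1 = c ∨ e.1.2 = c) ∧ ¬ F.Adj (h e.1.1) (h e.1.2)) from ⟨hc, hA⟩), if_pos]
        rw [SimpleGraph.compl_adj]
        exact ⟨hne, hA⟩
    · rw [if_neg hc, if_neg (show ¬ ((e.1.1 = c ∨ e.1.2 = c) ∧ ¬ F.Adj (h e.1.1) (h e.1.2)) from
          fun h3 => hc h3.1)]

end Pool.Agent.Y819.ZF.RelM
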