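import Pool.Agent.Y819.ZF.StmS
import Pool.Agent.Y819.ZF.RelM

set_option autoImplicit false
set_option linter.all false

namespace Pool.Agent.Y819.ZF.RelS

open MvPolynomial Finset Pool.Agent.Helper929 Pool.Agent.H604R2.LEC Pool.Agent.Y819.ZF Pool.Agent.Y819.ZF.Rel
  Pool.Agent.Y819.ZF.Cls Pool.Agent.Y819.ZF.RelM

theorem GP_eq (p : ℕ) {n : ℕ} (μ : Fin n → Fin n → ℕ) :
    GP (ZMod p) μ = PP (ZMod p) (mτ (edM μ)) (mη (edM μ)) := by
  classical
  unfold PP
  have h1 := PM_eq μ (fun v => (X v : MvPolynomial (Fin n) (ZMod p)))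
  rw [← h1]
  unfold GP PM
  rw [← Fintype.prod_prod_type' (fun (i j : Fin n) =>
    (if i < j then ((X i : MvPolynomial (Fin n) (ZMod p)) - X j) ^ μ i j else 1))]
  rw [← Finset.prod_filter]
  symm
  refine Finset.prod_bij (fun (e : Ed n) _ => e.1) ?_ ?_ ?_ ?_
  · intro e _
    rw [mem_filter]
    exact ⟨mem_univ _, e.2⟩
  · intro e _ e' _ h
    exact Subtype.ext h
  · intro q hq
    rw [mem_filter] at hq
    exact ⟨⟨q, hq.2⟩, mem_univ _, rfl⟩
  · intro e _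
    rfl

/-- the linear functional -/
theorem functional (hPF : S_PF) (hTRF : S_TRF) (p : ℕ) [hp : Fact p.Prime] (n : ℕ) (hn : Even n) :
    ∃ Λ : MvPolynomial (Fin n) (ZMod p) →ₗ[ZMod p] ZMod p, ∀ μ : Fin n → Fin n → ℕ,
      RegM (p - 2) μ → (Λ (GP (ZMod p) μ) = 0 ↔ cc (ZMod p) (p - 2) (mτ (edM μ)) (mη (edM μ)) = 0) := by
  classical
  obtain ⟨Λ, hΛ⟩ := hTRF p n hn (skew (cJ p n))
  refine ⟨Λ, fun μ hμ => ?_⟩
  have hreg : Reg (p - 2) (mτ (edM μ)) (mη (edM μ)) := by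
    apply reg_ME
    intro c
    exact deg_nm μ hμ (Equiv.refl _) c
  have hcard : Fintype.card (ME (edM μ)) = (p - 2) * (n / 2) := by
    have h1 := reg_card _ _ hreg
    obtain ⟨k, hk⟩ := hn
    have h2 : n / 2 = k := by omega
    rw [h2]
    have h3 : 2 * Fintype.card (ME (edM μ)) = 2 * ((p - 2) * k) := by
      rw [h1, hk]
      ring
    omega
  rw [GP_eq, ← hΛ _ _ _ hreg, hPF p n _ _ _ _ (skew_antisymm _) (skew_self _) hcard]
  constructor
  · intro h
    rcases mul_eq_zero.1 h with h | h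
    · exact h
    · exact absurd h (cJ_pf_ne p hn)
  · intro h
    rw [h, zero_mul]

theorem even_card (p : ℕ) [hp : Fact p.Prime] (hp2 : p ≠ 2) (n : ℕ) (μ : Fin n → Fin n → ℕ)
    (hμ : RegM (p - 2) μ) : Even n := by
  have hodd : Odd p := hp.out.odd_of_ne_two hp2
  have hp3 : 3 ≤ p := by
    have := hp.out.two_le
    omega
  have hd : Odd (p - 2) := by
    obtain ⟨k, hk⟩ := hodd
    exact ⟨k - 1, by omega⟩
  have hreg : Reg (p - 2) (mτ (edM μ)) (mη (edM μ)) := by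
    apply reg_ME
    intro c
    exact deg_nm μ hμ (Equiv.refl _) c
  have h1 := reg_card _ _ hreg
  have h2 : Even ((p - 2) * n) := ⟨_, by rw [← h1]; ring⟩
  rcases Nat.even_mul.1 h2 with h3 | h3
  · exact absurd h3 (Nat.not_even_iff_odd.2 hd)
  · exact h3

/-- linear relations between graph polynomials -/
theorem ok_relation (hPF : S_PF) (hTRF : S_TRF) (hNUM : S_NUM) (p : ℕ) [hp : Fact p.Prime]
    (hp2 : p ≠ 2) (n : ℕ) (μ₀ : Fin n → Fin n → ℕ) (h₀ : RegM (p - 2) μ₀) (hOK : OK p (Fin n) μ₀)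
    (S : Set (Fin n → Fin n → ℕ)) (hS : ∀ μ ∈ S, RegM (p - 2) μ)
    (hspan : GP (ZMod p) μ₀ ∈ Submodule.span (ZMod p) (GP (ZMod p) '' S)) :
    ∃ μ ∈ S, OK p (Fin n) μ := by
  classical
  obtain ⟨Λ, hΛ⟩ := functional hPF hTRF p n (even_card p hp2 n μ₀ h₀)
  by_contra hcon
  push Not at hcon
  have hker : Submodule.span (ZMod p) (GP (ZMod p) '' S) ≤ LinearMap.ker Λ := by
    rw [Submodule.span_le]
    rintro _ ⟨μ, hμ, rfl⟩
    show Λ _ = 0
    rw [hΛ μ (hS μ hμ)]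
    by_contra h1
    refine hcon μ hμ fun n' e' => ?_
    have hn : n' = n := by
      have := Fintype.card_congr e'
      rw [Fintype.card_fin, Fintype.card_fin] at this
      exact this.symm
    subst hn
    exact hNUM p (p - 2) (Fin n') μ (hS μ hμ).symm n' (Equiv.refl _) e' h1
  have h2 : Λ (GP (ZMod p) μ₀) = 0 := hker hspan
  rw [hΛ μ₀ h₀] at h2
  exact hOK n (Equiv.refl _) h2

end Pool.Agent.Y819.ZF.RelS
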