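import Pool.Agent.Y819.ZF.Stm2

/-!
# Project ZF, third part: the forcing construction for multigraphs
-/

set_option autoImplicit false
set_option linter.all false

namespace Pool.Agent.Y819.ZF

open MvPolynomial Finset Pool.Agent.Helper929 Pool.Agent.H604R2.LEC

/-- `ForcesM μ Z h m`: the forcing process for a multigraph with the multiplicities `μ v w`: the end
`x = h c` of the chain `c` forces `u ∈ Z` if `μ x u = 0` and `μ x z = 1` for all other `z ∈ Z`;
`m {a, b}` is the sum of `μ (h a) (h b)` over all stages at which one of `a`, `b` is about to move and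
the last stage. -/
inductive ForcesM {V : Type} [DecidableEq V] {f : ℕ} (μ : V → V → ℕ) :
    Finset V → (Fin f → V) → (Ed f → ℕ) → Prop
  | done (h : Fin f → V) : ForcesM μ ∅ h (fun e => μ (h e.1.1) (h e.1.2))
  | step (Z : Finset V) (h : Fin f → V) (c : Fin f) (u : V) (m : Ed f → ℕ)
      (hu : u ∈ Z) (h0 : μ (h c) u = 0) (h1 : ∀ z ∈ Z, z ≠ u → μ (h c) z = 1)
      (hm : ForcesM μ (Z.erase u) (Function.update h c u) m) :
      ForcesM μ Z h (fun e => m e + if e.1.1 = c ∨ e.1.2 = c then μ (h e.1.1) (h e.1.2) else 0)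

open Classical in
/-- the degree in the present multigraph -/
noncomputable def degM {V : Type} [Fintype V] {f : ℕ} (μ : V → V → ℕ) (Z : Finset V)
    (h : Fin f → V) (v : V) : ℕ :=
  ∑ w ∈ univ.filter (fun w => Cur Z h w), μ v w

open Classical in
/-- ZM1: the degrees of the chain multigraph -/
def S_DEGM : Prop := ∀ (V : Type) [Fintype V] [DecidableEq V] (f : ℕ) (μ : V → V → ℕ) (Z : Finset V)
  (h : Fin f → V) (m : Ed f → ℕ), (∀ v w, μ v w = μ w v) → (∀ v, μ v v = 0) →
  Function.Injective h → (∀ c, h c ∉ Z) →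
  (∀ v ∈ Z, degM μ Z h v = Z.card - 1) → ForcesM μ Z h m →
  ∀ c, ∑ e ∈ univ.filter (fun e : Ed f => e.1.1 = c ∨ e.1.2 = c), m e = degM μ Z h (h c)

/-- the polynomial of a multigraph -/
noncomputable def PM {n : ℕ} {K : Type} [CommRing K] (ν : Fin n → Fin n → ℕ) (s : Fin n → K) : K :=
  ∏ e : Ed n, (s e.1.1 - s e.1.2) ^ ν e.1.1 e.1.2

open Classical in
/-- ZM2: the alternating sum of the polynomials of a multigraph -/
def S_IDBM : Prop := ∀ (n f : ℕ) (μ : Fin n → Fin n → ℕ) (Z : Finset (Fin n)) (h : Fin f → Fin n)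
  (m : Ed f → ℕ), (∀ v w, μ v w = μ w v) → (∀ v, μ v v = 0) → Function.Injective h → (∀ c, h c ∉ Z) →
  (∀ v ∈ Z, degM μ Z h v = Z.card - 1) → ForcesM μ Z h m →
  ∃ ε : ℤ, (ε = 1 ∨ ε = -1) ∧ ∀ (K : Type) [Field K] (s : Fin n → K), Function.Injective s →
    ∑ σ ∈ univ.filter (fun σ : Equiv.Perm (Fin n) => ∀ v, v ∉ Z → σ v = v),
      (((Equiv.Perm.sign σ : ℤˣ) : ℤ) : K) *
        PM (fun a b => if Cur Z h a ∧ Cur Z h b then μ a b else 0) (fun v => s (σ v)) =
    (ε : K) * PM (fun a b => if a ∈ Z ∧ b ∈ Z then 1 else 0) s *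
      ∏ e : Ed f, (s (h e.1.1) - s (h e.1.2)) ^ m e

end Pool.Agent.Y819.ZF
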