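import Pool.Agent.Y819.ZF.StmS
import Pool.Agent.Y819.ZF.StmM

/-!
# Project ZF, fifth part: powers of the Hamiltonian cycle
-/

set_option autoImplicit false
set_option linter.all false

namespace Pool.Agent.Y819.ZF

open MvPolynomial Finset Pool.Agent.Helper929 Pool.Agent.H604R2.LEC

/-- the generic determinant -/
noncomputable def gdet (p k : ℕ) : MvPolynomial (Fin k × Fin k) (ZMod p) :=
  (Matrix.of fun i j : Fin k => (X (i, j) : MvPolynomial (Fin k × Fin k) (ZMod p))).det

/-- the exponents of a monomial -/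
noncomputable def expo {k : ℕ} (M : Fin k → Fin k → ℕ) : Fin k × Fin k →₀ ℕ :=
  Finsupp.equivFunOnFinite.symm fun e => M e.1 e.2

/-- ZP1: a coefficient of the power of the determinant -/
def S_DETC : Prop := ∀ (p : ℕ) [Fact p.Prime], p ≠ 2 → ∀ (k N : ℕ), k * N = p - 1 →
  coeff (expo fun i j : Fin k => if i = j then N - 1 else N) (gdet p k ^ (p - 2)) ≠ 0

/-- bipartite multigraph on `Fin (k + k)`, `M i j` edges between `i` and `k + j` -/
def bipS {k : ℕ} (M : Fin k → Fin k → ℕ) : Fin (k + k) → Fin (k + k) → ℕ := fun v w =>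
  Fin.addCases (motive := fun _ => ℕ)
    (fun i => Fin.addCases (motive := fun _ => ℕ) (fun _ => 0) (fun j => M i j) w)
    (fun j => Fin.addCases (motive := fun _ => ℕ) (fun i => M i j) (fun _ => 0) w) v

/-- ZP2: bipartite multigraphs and the determinant -/
def S_BIP : Prop := ∀ (p : ℕ) [Fact p.Prime] (k : ℕ) (M : Fin k → Fin k → ℕ), (∀ i j, M i j < p) →
  coeff (expo M) (gdet p k ^ (p - 2)) ≠ 0 →
  cc (ZMod p) (p - 2) (mτ fun e : Ed (k + k) => bipS M e.1.1 e.1.2)
    (mη fun e : Ed (k + k) => bipS M e.1.1 e.1.2) ≠ 0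

/-- the `k`-th power of the cycle with `n` vertices -/
def powC (n k : ℕ) : SimpleGraph (ZMod n) :=
  SimpleGraph.fromRel fun v w => ∃ j : ℕ, 1 ≤ j ∧ j ≤ k ∧ w = v + (j : ZMod n)

/-- ZP3: the non-neighbours in the power of the cycle -/
def S_PWA : Prop := ∀ (n k a b : ℕ), 2 * k < n → a ≤ b → b < n →
  ind (powC n k)ᶜ (a : ZMod n) (b : ZMod n) = if k < b - a ∧ b - a + k < n then 1 else 0

/-- ZP4: the complement of the power of the cycle is regular -/
def S_PWR : Prop := ∀ (n k : ℕ), 2 * k < n → RegM (n - 1 - 2 * k) (ind (powC n k)ᶜ)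

/-- ZP5: the forcing process of the power of the cycle -/
def S_PWF : Prop := ∀ (k N n : ℕ), 1 ≤ k → 1 ≤ N → n = k * N + 2 * k → ∀ [NeZero n]
  (μ : ZMod n → ZMod n → ℕ), (∀ v w, μ v w = μ w v) →
  (∀ a b : ℕ, a ≤ b → b < n → μ (a : ZMod n) (b : ZMod n) = if k < b - a ∧ b - a + k < n then 1 else 0) →
  ForcesM μ (univ.filter fun v : ZMod n => 2 * k ≤ v.val) (fun c : Fin (k + k) => ((c : ℕ) : ZMod n))
    (fun e => bipS (fun i j : Fin k => if i = j then N - 1 else N) e.1.1 e.1.2)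

end Pool.Agent.Y819.ZF
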