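import Pool.Agent.Y819.ZF.Stm2
import Pool.Agent.Y819.ZF.Asm

set_option autoImplicit false
set_option linter.all false

namespace Pool.Agent.Y819.ZF.Cls

open MvPolynomial Finset Pool.Agent.Helper929 Pool.Agent.H604R2.LEC Pool.Agent.Y819.ZF Pool.Agent.Y819.ZF.Rel

theorem sum_ind {V : Type} [Finite V] (G : SimpleGraph V) (v : V) :
    ∑ᶠ w, ind G v w = (G.neighborSet v).ncard := by
  classical
  have := Fintype.ofFinite V
  rw [finsum_eq_sum_of_fintype]
  unfold ind
  rw [Finset.sum_boole]
  rw [ncard_filter]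
  rfl

theorem regM_ind {V : Type} [Finite V] (G : SimpleGraph V) (d : ℕ) (h : ∀ v, (G.neighborSet v).ncard = d) :
    RegM d (ind G) := by
  classical
  refine ⟨inferInstance, ?_, ?_, ?_⟩
  · intro v w
    unfold ind
    simp only [G.adj_comm]
  · intro v
    unfold ind
    simp
  · intro v
    rw [sum_ind, h]

theorem ind_reg {V : Type} (G : SimpleGraph V) (d : ℕ) (h : RegM d (ind G)) (v : V) :
    (G.neighborSet v).ncard = d := by
  have := h.fin
  rw [← sum_ind, h.reg]

theorem regM_compl {V : Type} [Finite V] (p f : ℕ) (hp : 2 ≤ p) (F : SimpleGraph V)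
    (hV : Nat.card V = p - 1 + f) (hreg : ∀ v, (F.neighborSet v).ncard = f) : RegM (p - 2) (ind Fᶜ) := by
  refine regM_ind _ _ fun v => ?_
  have h1 := Set.ncard_add_ncard_compl (F.neighborSet v)
  rw [hV, hreg] at h1
  have h2 : (F.neighborSet v)ᶜ = insert v (Fᶜ.neighborSet v) := by
    ext w
    rw [Set.mem_compl_iff, Set.mem_insert_iff, SimpleGraph.mem_neighborSet, SimpleGraph.mem_neighborSet,
      SimpleGraph.compl_adj]
    constructor
    · intro h3
      by_cases h4 : w = v
      · exact Or.inl h4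
      · exact Or.inr ⟨fun h5 => h4 h5.symm, h3⟩
    · rintro (h3 | h3)
      · subst h3
        exact F.loopless.irrefl _
      · exact h3.2
  rw [h2, Set.ncard_insert_of_notMem] at h1
  · omega
  · exact fun h3 => Fᶜ.loopless.irrefl _ h3

theorem regM_top {V : Type} (p : ℕ) (hp : 2 ≤ p) (hV : Nat.card V = p - 1) :
    RegM (p - 2) (ind (⊤ : SimpleGraph V)) := by
  have : Finite V := Nat.finite_of_card_ne_zero (by omega)
  have h := regM_compl p 0 hp (⊥ : SimpleGraph V) (by rw [hV]; rfl) (by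
    intro v
    have : (⊥ : SimpleGraph V).neighborSet v = ∅ := by
      ext w
      simp
    rw [this, Set.ncard_empty])
  rwa [compl_bot] at h

theorem regM_iso {V W : Type} {d : ℕ} (e : V ≃ W) (μ : V → V → ℕ) (h : RegM d μ) :
    RegM d (fun v w => μ (e.symm v) (e.symm w)) := by
  have := h.fin
  refine ⟨Finite.of_equiv V e, fun v w => h.symm _ _, fun v => h.diag _, fun v => ?_⟩
  rw [← h.reg (e.symm v)]
  exact (finsum_comp_equiv e.symm (f := fun w => μ (e.symm v) w))

theorem ok_iso {V W : Type} {p : ℕ} (e : V ≃ W) (μ : V → V → ℕ) (h : OK p V μ) :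
    OK p W (fun v w => μ (e.symm v) (e.symm w)) := fun n e' => h n (e.trans e')

theorem regM_sum {V W : Type} {d : ℕ} (μ : V → V → ℕ) (ν : W → W → ℕ) (h1 : RegM d μ) (h2 : RegM d ν) :
    RegM d (sumM μ ν) := by
  have := h1.fin
  have := h2.fin
  have := Fintype.ofFinite V
  have := Fintype.ofFinite W
  refine ⟨inferInstance, ?_, ?_, ?_⟩
  · rintro (v | v) (w | w)
    · exact h1.symm v w
    · rfl
    · rfl
    · exact h2.symm v w
  · rintro (v | v)
    · exact h1.diag v
    · exact h2.diag v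
  · rintro (v | v)
    · rw [finsum_eq_sum_of_fintype, Fintype.sum_sum_type, ← h1.reg v, finsum_eq_sum_of_fintype]
      simp [sumM]
    · rw [finsum_eq_sum_of_fintype, Fintype.sum_sum_type, ← h2.reg v, finsum_eq_sum_of_fintype]
      simp [sumM]

theorem cover_reg {V P : Type} [Group P] [Finite P] (G : SimpleGraph V) (β : V → V → P)
    (hβ : ∀ u v, β v u = (β u v)⁻¹) (x : V × P) :
    ((coverGraph G β hβ).neighborSet x).ncard = (G.neighborSet x.1).ncard := by
  have : (coverGraph G β hβ).neighborSet x = (fun w => (w, x.2 * β x.1 w)) '' (G.neighborSet x.1) := by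
    ext y
    rw [Set.mem_image]
    constructor
    · rintro ⟨h1, h2⟩
      exact ⟨y.1, h1, Prod.ext rfl h2.symm⟩
    · rintro ⟨w, hw, rfl⟩
      exact ⟨hw, rfl⟩
  rw [this]
  exact Set.ncard_image_of_injective _ fun a b h => congrArg Prod.fst h

theorem regM_cover {V P : Type} [Group P] [Finite P] {d : ℕ} (G : SimpleGraph V) (β : V → V → P)
    (hβ : ∀ u v, β v u = (β u v)⁻¹) (h : RegM d (ind G)) : RegM d (ind (coverGraph G β hβ)) := by
  have := h.fin
  exact regM_ind _ _ fun x => by rw [cover_reg, ind_reg G d h]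

open Classical in
/-- sums over the edges at a vertex -/
theorem deg_nm {V : Type} {n d : ℕ} (μ : V → V → ℕ) (h : RegM d μ) (e : V ≃ Fin n) (c : Fin n) :
    ∑ x ∈ univ.filter (fun x : Ed n => x.1.1 = c ∨ x.1.2 = c), nm μ e x = d := by
  have := h.fin
  have h1 : ∑ w : Fin n, μ (e.symm c) (e.symm w) = d := by
    rw [← h.reg (e.symm c), ← finsum_eq_sum_of_fintype]
    exact finsum_comp_equiv e.symm (f := fun w => μ (e.symm c) w)
  rw [← h1, ← Finset.add_sum_erase univ _ (mem_univ c), h.diag, zero_add]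
  symm
  refine Finset.sum_bij' (fun w hw => (if hcw : c < w then ⟨(c, w), hcw⟩ else
    ⟨(w, c), lt_of_le_of_ne (not_lt.1 hcw) (Finset.ne_of_mem_erase hw)⟩ : Ed n))
    (fun x _ => if x.1.1 = c then x.1.2 else x.1.1) ?_ ?_ ?_ ?_ ?_
  · intro w hw
    rw [mem_filter]
    refine ⟨mem_univ _, ?_⟩
    split_ifs
    · exact Or.inl rfl
    · exact Or.inr rfl
  · intro x hx
    rw [mem_filter] at hx
    rw [mem_erase]
    refine ⟨?_, mem_univ _⟩
    have h2 := x.2
    split_ifs with h3
    · rw [← h3]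
      exact h2.ne'
    · exact h3
  · intro w hw
    by_cases hcw : c < w
    · rw [dif_pos hcw]
      simp
    · rw [dif_neg hcw]
      simp only
      rw [if_neg (Finset.ne_of_mem_erase hw)]
  · intro x hx
    rw [mem_filter] at hx
    have h2 := x.2
    by_cases h3 : x.1.1 = c
    · have h4 : (if x.1.1 = c then x.1.2 else x.1.1) = x.1.2 := if_pos h3
      apply Subtype.ext
      simp only [h4]
      have h5 : c < x.1.2 := by rw [← h3]; exact h2
      rw [dif_pos h5]
      exact Prod.ext h3.symm rfl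
    · have h4 : (if x.1.1 = c then x.1.2 else x.1.1) = x.1.1 := if_neg h3
      have h6 : x.1.2 = c := hx.2.resolve_left h3
      apply Subtype.ext
      simp only [h4]
      have h5 : ¬ c < x.1.1 := by rw [← h6]; exact not_lt.2 h2.le
      rw [dif_neg h5]
      exact Prod.ext rfl h6.symm
  · intro w hw
    by_cases hcw : c < w
    · rw [dif_pos hcw]
      rfl
    · rw [dif_neg hcw]
      exact h.symm _ _

theorem ok_small (hS : S_SMALL) (p : ℕ) [Fact p.Prime] (hp2 : p ≠ 2) {V : Type} (μ : V → V → ℕ)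
    (h : RegM (p - 2) μ) (hV : Nat.card V = 2 ∨ Nat.card V = 4) : OK p V μ := by
  intro n e
  have h1 : Nat.card V = n := by
    rw [Nat.card_congr e, Nat.card_eq_fintype_card, Fintype.card_fin]
  refine hS p hp2 n (by rwa [h1] at hV) (nm μ e) ?_
  intro c
  rw [← deg_nm μ h e c]

theorem comap_compl {V W : Type} (e : V ≃ W) (F : SimpleGraph V) :
    (Fᶜ).comap e.symm = (F.comap e.symm)ᶜ := by
  ext a b
  simp only [SimpleGraph.comap_adj, SimpleGraph.compl_adj]
  constructor
  · rintro ⟨h1, h2⟩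
    exact ⟨fun h3 => h1 (by rw [h3]), h2⟩
  · rintro ⟨h1, h2⟩
    exact ⟨fun h3 => h1 (e.symm.injective h3), h2⟩

/-- the forcing construction -/
theorem ok_forcing (hREL : S_REL) (hNUM : S_NUM) (hGME : S_GME) (p : ℕ) [hp : Fact p.Prime] (hp2 : p ≠ 2)
    (f : ℕ) (V : Type) [Fintype V] [DecidableEq V] (F : SimpleGraph V)
    (hV : Fintype.card V = p - 1 + f) (hreg : ∀ v, (F.neighborSet v).ncard = f) (h : Fin f → V)
    (hinj : Function.Injective h) (m : Ed f → ℕ)
    (hF : Forces F (univ.filter fun v => ∀ c, h c ≠ v) h m)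
    (hcc : cc (ZMod p) (p - 2) (mτ m) (mη m) ≠ 0) : OK p V (ind Fᶜ) := by
  classical
  intro n e'
  have hn : n = p - 1 + f := by
    rw [← hV, Fintype.card_congr e', Fintype.card_fin]
  subst hn
  have hp2' := hp.out.two_le
  obtain ⟨e, he1, he2⟩ := Asm.exists_equiv hV h hinj
  have hF' := Asm.forces_map e F _ h m hF
  rw [he2] at hF'
  have he3 : (fun c => e (h c)) = Fin.natAdd (p - 1) := funext he1
  rw [he3] at hF'
  have hreg' : ∀ v, ((F.comap e.symm).neighborSet v).ncard = f := fun v => by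
    rw [Asm.comap_deg, hreg]
  have h1 := hREL p hp2 f (F.comap e.symm) m hreg' hF' hcc
  rw [← comap_compl] at h1
  have h2 := (hGME p (p - 2) V Fᶜ (p - 1 + f) e).1 h1
  exact hNUM p (p - 2) V (ind Fᶜ) (regM_compl p f hp2' F (by rw [Nat.card_eq_fintype_card, hV]) hreg).symm _ e e' h2

end Pool.Agent.Y819.ZF.Cls
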