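import Pool.Agent.Y819.ZF.Rel

set_option autoImplicit false
set_option linter.all false

namespace Pool.Agent.Y819.ZF.Rel

open MvPolynomial Finset Pool.Agent.Helper929 Pool.Agent.H604R2.LEC Pool.Agent.Y819.ZF

/-! ### products -/

/-- the disjoint union of `K_z` and the chain multigraph -/
def uτ (z : ℕ) {f : ℕ} (m : Ed f → ℕ) : Ed z ⊕ ME m → Fin (z + f) :=
  Sum.elim (fun e => Fin.castAdd f e.1.1) (fun e => Fin.natAdd z (mτ m e))
def uη (z : ℕ) {f : ℕ} (m : Ed f → ℕ) : Ed z ⊕ ME m → Fin (z + f) :=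
  Sum.elim (fun e => Fin.castAdd f e.1.2) (fun e => Fin.natAdd z (mη m e))

theorem mem_PR {n : ℕ} (T : Fin n → Fin n → Prop) (e : Ed n) :
    e ∈ @Finset.filter (Ed n) (fun e : Ed n => T e.1.1 e.1.2)
      (fun e => Classical.propDecidable (T e.1.1 e.1.2)) univ ↔ T e.1.1 e.1.2 := by
  classical
  simp

theorem prod_T {n : ℕ} {K : Type} [CommRing K] (G : SimpleGraph (Fin n)) (T : Fin n → Fin n → Prop)
    (hT : ∀ a b, a < b → (T a b ↔ G.Adj a b)) (s : Fin n → K) :
    PR T s = ∏ e : GE G, (s (gτ G e) - s (gη G e)) := by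
  classical
  unfold PR
  exact Finset.prod_subtype (F := inferInstanceAs (Fintype (GE G))) (p := fun e : Ed n => G.Adj e.1.1 e.1.2) _ (fun e =>
    (mem_PR T e).trans (hT _ _ e.2)) (fun e : Ed n => s e.1.1 - s e.1.2)

theorem prod_Z {z f : ℕ} {K : Type} [CommRing K] (s : Fin (z + f) → K) :
    PR (fun a b => a ∈ univ.image (Fin.castAdd f : Fin z → Fin (z + f)) ∧
      b ∈ univ.image (Fin.castAdd f : Fin z → Fin (z + f))) s =
    ∏ e : Ed z, (s (Fin.castAdd f e.1.1) - s (Fin.castAdd f e.1.2)) := by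
  classical
  unfold PR
  symm
  refine Finset.prod_bij (fun (e : Ed z) _ => (⟨(Fin.castAdd f e.1.1, Fin.castAdd f e.1.2),
    e.2⟩ : Ed (z + f))) ?_ ?_ ?_ ?_
  · intro e _
    exact (mem_PR (fun a b => a ∈ univ.image (Fin.castAdd f : Fin z → Fin (z + f)) ∧
      b ∈ univ.image (Fin.castAdd f : Fin z → Fin (z + f))) _).2
      ⟨mem_image_of_mem _ (mem_univ _), mem_image_of_mem _ (mem_univ _)⟩
  · intro e _ e' _ h
    have h1 := congrArg (fun x : Ed (z + f) => x.1.1) h
    have h2 := congrArg (fun x : Ed (z + f) => x.1.2) h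
    simp only at h1 h2
    exact Subtype.ext (Prod.ext (Fin.castAdd_injective _ _ h1) (Fin.castAdd_injective _ _ h2))
  · intro e he
    have he2 := (mem_PR (fun a b => a ∈ univ.image (Fin.castAdd f : Fin z → Fin (z + f)) ∧
      b ∈ univ.image (Fin.castAdd f : Fin z → Fin (z + f))) _).1 he
    obtain ⟨h1, h2⟩ := he2
    rw [mem_image] at h1 h2
    obtain ⟨a, _, ha⟩ := h1
    obtain ⟨b, _, hb⟩ := h2
    have hab : a < b := by
      have h3 := e.2
      rw [← ha, ← hb] at h3
      exact h3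
    refine ⟨⟨(a, b), hab⟩, mem_univ _, ?_⟩
    exact Subtype.ext (Prod.ext ha hb)
  · intro e _
    rfl

theorem PP_perm {n : ℕ} {R K : Type} [CommRing R] [CommRing K] {E : Type} [Fintype E]
    (φ : MvPolynomial (Fin n) R →+* K) (τ η : E → Fin n) :
    φ (PP R τ η) = ∏ e, (φ (X (τ e)) - φ (X (η e))) := by
  unfold PP
  rw [map_prod]
  simp only [map_sub]

theorem PP_union {z f : ℕ} {R K : Type} [CommRing R] [CommRing K] (m : Ed f → ℕ)
    (φ : MvPolynomial (Fin (z + f)) R →+* K) :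
    φ (PP R (uτ z m) (uη z m)) =
      PR (fun a b => a ∈ univ.image (Fin.castAdd f : Fin z → Fin (z + f)) ∧
        b ∈ univ.image (Fin.castAdd f : Fin z → Fin (z + f))) (fun v => φ (X v)) *
      ∏ e : Ed f, (φ (X (Fin.natAdd z e.1.1)) - φ (X (Fin.natAdd z e.1.2))) ^ m e := by
  rw [PP_perm, Fintype.prod_sum_type, prod_Z]
  congr 1
  rw [Fintype.prod_sigma]
  refine Finset.prod_congr rfl fun e _ => ?_
  have : ∀ i : Fin (m e), φ (X (uτ z m (Sum.inr ⟨e, i⟩))) - φ (X (uη z m (Sum.inr ⟨e, i⟩))) =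
      φ (X (Fin.natAdd z e.1.1)) - φ (X (Fin.natAdd z e.1.2)) := fun _ => rfl
  rw [Finset.prod_congr rfl fun i _ => this i, Finset.prod_const, Finset.card_univ, Fintype.card_fin]

/-- the relation between polynomials -/
theorem rel_poly (hI : S_IDB) {z f : ℕ} (p : ℕ) [Fact p.Prime] (F : SimpleGraph (Fin (z + f))) (m : Ed f → ℕ)
    (hcod : ∀ v, codeg F (univ.image (Fin.castAdd f : Fin z → Fin (z + f))) (Fin.natAdd z) v = z - 1)
    (hF : Forces F (univ.image (Fin.castAdd f : Fin z → Fin (z + f))) (Fin.natAdd z) m) :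
    ∃ ε : ℤ, (ε = 1 ∨ ε = -1) ∧
      ∑ σ ∈ univ.filter (fun σ : Equiv.Perm (Fin (z + f)) =>
          ∀ v, v ∉ univ.image (Fin.castAdd f : Fin z → Fin (z + f)) → σ v = v),
        (((Equiv.Perm.sign σ : ℤˣ) : ℤ) : ZMod p) •
          PP (ZMod p) (fun e => σ (gτ Fᶜ e)) (fun e => σ (gη Fᶜ e)) =
      (ε : ZMod p) • PP (ZMod p) (uτ z m) (uη z m) := by
  classical
  set Z := univ.image (Fin.castAdd f : Fin z → Fin (z + f)) with hZ
  have hZc : Z.card = z := by
    rw [hZ, Finset.card_image_of_injective _ (Fin.castAdd_injective _ _), Finset.card_univ,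
      Fintype.card_fin]
  obtain ⟨ε, hε, hid⟩ := hI (z + f) f F Z (Fin.natAdd z) m (Fin.natAdd_injective _ _) (by
    intro c hc
    rw [hZ, mem_image] at hc
    obtain ⟨a, _, ha⟩ := hc
    have := congrArg Fin.val ha
    simp at this
    omega) (by
    intro v _
    rw [hcod, hZc]) hF
  refine ⟨ε, hε, ?_⟩
  let K := FractionRing (MvPolynomial (Fin (z + f)) (ZMod p))
  have hinj : Function.Injective (algebraMap (MvPolynomial (Fin (z + f)) (ZMod p)) K) :=
    IsFractionRing.injective _ _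
  apply hinj
  have h1 := hid K (fun v => algebraMap (MvPolynomial (Fin (z + f)) (ZMod p)) K (X v))
    (fun v w h => X_injective (hinj h))
  have hsm : ∀ (a : ℤ) (g : MvPolynomial (Fin (z + f)) (ZMod p)),
      algebraMap (MvPolynomial (Fin (z + f)) (ZMod p)) K ((a : ZMod p) • g) =
        (a : K) * algebraMap (MvPolynomial (Fin (z + f)) (ZMod p)) K g := by
    intro a g
    rw [Algebra.smul_def, map_mul]
    simp
  rw [map_sum, hsm, PP_union, ← mul_assoc, ← h1]
  refine Finset.sum_congr rfl fun σ _ => ?_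
  rw [hsm, PP_perm]
  congr 1
  symm
  refine prod_T Fᶜ _ ?_ _
  intro a b hab
  rw [SimpleGraph.compl_adj]
  constructor
  · exact fun h => ⟨hab.ne, h.2.2⟩
  · intro h
    refine ⟨?_, ?_, h.2⟩
    · unfold Cur
      induction a using Fin.addCases with
      | left a => exact Or.inl (mem_image_of_mem _ (mem_univ _))
      | right a => exact Or.inr ⟨a, rfl⟩
    · unfold Cur
      induction b using Fin.addCases with
      | left a => exact Or.inl (mem_image_of_mem _ (mem_univ _))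
      | right a => exact Or.inr ⟨a, rfl⟩

end Pool.Agent.Y819.ZF.Rel
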