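import Pool.Agent.Y819.ZF.Rel2

set_option autoImplicit false
set_option linter.all false

namespace Pool.Agent.Y819.ZF.Rel

open MvPolynomial Finset Pool.Agent.Helper929 Pool.Agent.H604R2.LEC Pool.Agent.Y819.ZF

theorem cJ_pf_ne (p : ℕ) [Fact p.Prime] {n : ℕ} (hn : Even n) : pf n (skew (cJ p n)) ≠ 0 := by
  intro h
  have h1 := pf_sq_ring (cJ p n)
  rw [h, zero_pow two_ne_zero] at h1
  obtain ⟨v, hv, hAv⟩ := Matrix.exists_mulVec_eq_zero_iff.mpr h1.symm
  apply hv
  funext i
  have h2 : ∑ j, skew (cJ p n) i.rev j * v j = 0 := congrFun hAv i.rev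
  rw [sum_cJ hn, Fin.rev_rev] at h2
  rcases mul_eq_zero.1 h2 with h3 | h3
  · exfalso
    have h4 := congrArg (Int.cast : ℤ → ZMod p) (sz_sq i.rev)
    push_cast at h4
    rw [h3, zero_mul] at h4
    exact zero_ne_one h4
  · exact h3

theorem reg_equiv {n d : ℕ} {E E' : Type} [Fintype E] [Fintype E'] (ψ : E ≃ E') (τ η : E' → Fin n)
    (h : Reg d τ η) : Reg d (fun e => τ (ψ e)) (fun e => η (ψ e)) := by
  intro i
  rw [← h i]
  congr 1
  · exact Finset.card_bij (fun e _ => ψ e) (fun e he => by simpa using he)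
      (fun e _ e' _ h => ψ.injective h) (fun e he => ⟨ψ.symm e, by simpa using he, by simp⟩)
  · exact Finset.card_bij (fun e _ => ψ e) (fun e he => by simpa using he)
      (fun e _ e' _ h => ψ.injective h) (fun e he => ⟨ψ.symm e, by simpa using he, by simp⟩)

theorem reg_K {z : ℕ} : Reg (z - 1) (fun e : Ed z => e.1.1) (fun e : Ed z => e.1.2) := by
  classical
  let ψ : Ed z ≃ GE (⊤ : SimpleGraph (Fin z)) :=
    { toFun := fun e => ⟨e, by rw [SimpleGraph.top_adj]; exact e.2.ne⟩
      invFun := fun e => e.1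
      left_inv := fun _ => rfl
      right_inv := fun _ => rfl }
  refine reg_equiv ψ (gτ ⊤) (gη ⊤) (reg_graph (⊤ : SimpleGraph (Fin z)) ?_)
  intro v
  have : {w | (⊤ : SimpleGraph (Fin z)).Adj v w} = ((univ.erase v : Finset (Fin z)) : Set (Fin z)) := by
    ext w
    simp [SimpleGraph.top_adj, eq_comm]
  rw [this, Set.ncard_coe_finset, Finset.card_erase_of_mem (mem_univ _), Finset.card_univ, Fintype.card_fin]

theorem reg_union {z f d : ℕ} (m : Ed f → ℕ) (h1 : Reg d (fun e : Ed z => e.1.1) (fun e : Ed z => e.1.2))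
    (h2 : Reg d (mτ m) (mη m)) : Reg d (uτ z m) (uη z m) := by
  classical
  intro i
  have hs : ∀ (g : Ed z ⊕ ME m → Fin (z + f)), (univ.filter fun e => g e = i).card =
      (univ.filter fun e => g (Sum.inl e) = i).card + (univ.filter fun e => g (Sum.inr e) = i).card := by
    intro g
    rw [Finset.card_filter, Fintype.sum_sum_type, Finset.card_filter, Finset.card_filter]
  rw [hs, hs]
  induction i using Fin.addCases with
  | left a =>
    rw [← h1 a]
    have e1 : (univ.filter fun e : Ed z => uτ z m (Sum.inl e) = Fin.castAdd f a) =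
        univ.filter fun e : Ed z => e.1.1 = a := by
      ext e
      rw [mem_filter, mem_filter]
      exact and_congr_right fun _ => (Fin.castAdd_injective _ _).eq_iff
    have e2 : (univ.filter fun e : Ed z => uη z m (Sum.inl e) = Fin.castAdd f a) =
        univ.filter fun e : Ed z => e.1.2 = a := by
      ext e
      rw [mem_filter, mem_filter]
      exact and_congr_right fun _ => (Fin.castAdd_injective _ _).eq_iff
    have e3 : (univ.filter fun e : ME m => uτ z m (Sum.inr e) = Fin.castAdd f a) = ∅ := by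
      rw [Finset.filter_eq_empty_iff]
      intro e _ h
      have h3 : Fin.natAdd z (mτ m e) = Fin.castAdd f a := h
      have h4 := congrArg Fin.val h3
      simp at h4
      omega
    have e4 : (univ.filter fun e : ME m => uη z m (Sum.inr e) = Fin.castAdd f a) = ∅ := by
      rw [Finset.filter_eq_empty_iff]
      intro e _ h
      have h3 : Fin.natAdd z (mη m e) = Fin.castAdd f a := h
      have h4 := congrArg Fin.val h3
      simp at h4
      omega
    rw [e1, e2, e3, e4]
    simp
  | right a =>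
    rw [← h2 a]
    have e1 : (univ.filter fun e : ME m => uτ z m (Sum.inr e) = Fin.natAdd z a) =
        univ.filter fun e : ME m => mτ m e = a := by
      ext e
      rw [mem_filter, mem_filter]
      exact and_congr_right fun _ => (Fin.natAdd_injective _ _).eq_iff
    have e2 : (univ.filter fun e : ME m => uη z m (Sum.inr e) = Fin.natAdd z a) =
        univ.filter fun e : ME m => mη m e = a := by
      ext e
      rw [mem_filter, mem_filter]
      exact and_congr_right fun _ => (Fin.natAdd_injective _ _).eq_iff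
    have e3 : (univ.filter fun e : Ed z => uτ z m (Sum.inl e) = Fin.natAdd z a) = ∅ := by
      rw [Finset.filter_eq_empty_iff]
      intro e _ h
      have h3 : Fin.castAdd f e.1.1 = Fin.natAdd z a := h
      have h4 := congrArg Fin.val h3
      simp at h4
      omega
    have e4 : (univ.filter fun e : Ed z => uη z m (Sum.inl e) = Fin.natAdd z a) = ∅ := by
      rw [Finset.filter_eq_empty_iff]
      intro e _ h
      have h3 : Fin.castAdd f e.1.2 = Fin.natAdd z a := h
      have h4 := congrArg Fin.val h3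
      simp at h4
      omega
    rw [e1, e2, e3, e4]
    simp

theorem compl_deg {z f : ℕ} (F : SimpleGraph (Fin (z + f))) (hz : 1 ≤ z)
    (hreg : ∀ v, (F.neighborSet v).ncard = f) (v : Fin (z + f)) :
    {w | Fᶜ.Adj v w}.ncard = z - 1 := by
  classical
  have hf : {w | F.Adj v w}.ncard = f := hreg v
  have h1 := Set.ncard_add_ncard_compl {w | F.Adj v w}
  rw [Nat.card_eq_fintype_card, Fintype.card_fin] at h1
  have h2 : {w | F.Adj v w}ᶜ = insert v {w | Fᶜ.Adj v w} := by
    ext w
    rw [Set.mem_compl_iff, Set.mem_insert_iff, Set.mem_setOf_eq, Set.mem_setOf_eq, SimpleGraph.compl_adj]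
    constructor
    · intro h3
      by_cases h4 : w = v
      · exact Or.inl h4
      · exact Or.inr ⟨fun h5 => h4 h5.symm, h3⟩
    · rintro (h3 | h3)
      · subst h3
        exact F.loopless.irrefl _
      · exact h3.2
  rw [h2, Set.ncard_insert_of_notMem] at h1
  · omega
  · exact fun h3 => Fᶜ.loopless.irrefl _ h3

theorem codeg_eq {z f : ℕ} (F : SimpleGraph (Fin (z + f))) (hz : 1 ≤ z)
    (hreg : ∀ v, (F.neighborSet v).ncard = f) (v : Fin (z + f)) :
    codeg F (univ.image (Fin.castAdd f : Fin z → Fin (z + f))) (Fin.natAdd z) v = z - 1 := by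
  classical
  rw [← compl_deg F hz hreg v]
  unfold codeg
  rw [ncard_filter]
  congr 1
  ext w
  rw [Set.mem_setOf_eq, Set.mem_setOf_eq, SimpleGraph.compl_adj]
  constructor
  · rintro ⟨_, h1, h2⟩
    exact ⟨h1.symm, h2⟩
  · rintro ⟨h1, h2⟩
    refine ⟨?_, h1.symm, h2⟩
    unfold Cur
    induction w using Fin.addCases with
    | left a => exact Or.inl (mem_image_of_mem _ (mem_univ _))
    | right a => exact Or.inr ⟨a, rfl⟩

theorem blk_skew {z f : ℕ} {R : Type} [CommRing R] (A₁ : Matrix (Fin z) (Fin z) R) (A₂ : Matrix (Fin f) (Fin f) R)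
    (h1 : ∀ i j, A₁ i j = - A₁ j i) (h1' : ∀ i, A₁ i i = 0) (h2 : ∀ i j, A₂ i j = - A₂ j i)
    (h2' : ∀ i, A₂ i i = 0) :
    (∀ i j, ((Matrix.fromBlocks A₁ 0 0 A₂).submatrix finSumFinEquiv.symm finSumFinEquiv.symm) i j =
      - ((Matrix.fromBlocks A₁ 0 0 A₂).submatrix finSumFinEquiv.symm finSumFinEquiv.symm) j i) ∧
    ∀ i, ((Matrix.fromBlocks A₁ 0 0 A₂).submatrix finSumFinEquiv.symm finSumFinEquiv.symm) i i = 0 := by
  constructor
  · intro i j
    rw [Matrix.submatrix_apply, Matrix.submatrix_apply]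
    rcases finSumFinEquiv.symm i with a | a <;> rcases finSumFinEquiv.symm j with b | b
    · exact h1 a b
    · simp
    · simp
    · exact h2 a b
  · intro i
    rw [Matrix.submatrix_apply]
    rcases finSumFinEquiv.symm i with a | a
    · exact h1' a
    · exact h2' a

theorem rel_z (hPF : S_PF) (hTRF : S_TRF) (hALT : S_ALT) (hBLK : S_BLK) (hKZ : S_KZ) (hDEG : S_DEG)
    (hIDB : S_IDB) (p : ℕ) [hp : Fact p.Prime] (hp2 : p ≠ 2) (z f : ℕ) (hpz : p = z + 1)
    (F : SimpleGraph (Fin (z + f)))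
    (m : Ed f → ℕ) (hreg : ∀ v, (F.neighborSet v).ncard = f)
    (hF : Forces F (univ.image (Fin.castAdd f : Fin z → Fin (z + f))) (Fin.natAdd z) m)
    (hcc : cc (ZMod p) (p - 2) (mτ m) (mη m) ≠ 0) :
    cc (ZMod p) (p - 2) (gτ Fᶜ) (gη Fᶜ) ≠ 0 := by
  classical
  intro h0
  have hodd : Odd p := hp.out.odd_of_ne_two hp2
  have hp3 : 3 ≤ p := by
    have := hp.out.two_le
    omega
  have hze : Even z := by
    obtain ⟨k, hk⟩ := hodd
    exact ⟨k, by omega⟩
  have hd : Odd (p - 2) := by
    obtain ⟨k, hk⟩ := hodd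
    exact ⟨k - 1, by omega⟩
  have hz2 : z - 1 = p - 2 := by omega
  have hcod := codeg_eq F (by omega) hreg
  have hregG : Reg (p - 2) (gτ Fᶜ) (gη Fᶜ) := by
    rw [← hz2]
    exact reg_graph _ (compl_deg F (by omega) hreg)
  have hZc : (univ.image (Fin.castAdd f : Fin z → Fin (z + f))).card = z := by
    rw [Finset.card_image_of_injective _ (Fin.castAdd_injective _ _), Finset.card_univ,
      Fintype.card_fin]
  have hdeg := hDEG (Fin (z + f)) f F _ (Fin.natAdd z) m (Fin.natAdd_injective _ _) (by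
    intro c hc
    rw [mem_image] at hc
    obtain ⟨a, _, ha⟩ := hc
    have := congrArg Fin.val ha
    simp at this
    omega) (by
    intro v _
    rw [hcod, hZc]) hF
  have hregM : Reg (p - 2) (mτ m) (mη m) := by
    apply reg_ME
    intro c
    rw [← hz2, ← hcod (Fin.natAdd z c), ← hdeg c]
  have hregU : Reg (p - 2) (uτ z m) (uη z m) := by
    refine reg_union m ?_ hregM
    rw [← hz2]
    exact reg_K
  have hn : Even (z + f) := by
    have h1 := reg_card _ _ hregG
    have h2 : Even ((p - 2) * (z + f)) := ⟨_, by rw [← h1]; ring⟩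
    rcases Nat.even_mul.1 h2 with h3 | h3
    · exact absurd h3 (Nat.not_even_iff_odd.2 hd)
    · exact h3
  have hfe : Even f := by
    rcases Nat.even_add.1 hn with h
    exact h.1 hze
  have hcardG : Fintype.card (GE Fᶜ) = (p - 2) * ((z + f) / 2) := by
    have h1 := reg_card _ _ hregG
    obtain ⟨k, hk⟩ := hn
    have h2 : (z + f) / 2 = k := by omega
    rw [h2]
    have h3 : 2 * Fintype.card (GE Fᶜ) = 2 * ((p - 2) * k) := by
      rw [h1, hk]
      ring
    omega
  have hcardM : Fintype.card (ME m) = (p - 2) * (f / 2) := by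
    have h1 := reg_card _ _ hregM
    obtain ⟨k, hk⟩ := hfe
    have h2 : f / 2 = k := by omega
    rw [h2]
    have h3 : 2 * Fintype.card (ME m) = 2 * ((p - 2) * k) := by
      rw [h1]
      calc (p - 2) * f = (p - 2) * (k + k) := by rw [← hk]
        _ = 2 * ((p - 2) * k) := by ring
    omega
  obtain ⟨ε, hε, hrel⟩ := rel_poly hIDB p F m hcod hF
  set A := (Matrix.fromBlocks (skew (cJ p z)) 0 0 (skew (cJ p f))).submatrix finSumFinEquiv.symm
    finSumFinEquiv.symm with hA
  obtain ⟨hA1, hA2⟩ := blk_skew (skew (cJ p z)) (skew (cJ p f)) (skew_antisymm _) (skew_self _)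
    (skew_antisymm _) (skew_self _)
  obtain ⟨Λ, hΛ⟩ := hTRF p (z + f) hn A
  have h1 := congrArg Λ hrel
  rw [map_sum, map_smul, ← hΛ _ _ _ hregU] at h1
  have h2 : ∀ σ : Equiv.Perm (Fin (z + f)), Λ ((((Equiv.Perm.sign σ : ℤˣ) : ℤ) : ZMod p) •
      PP (ZMod p) (fun e => σ (gτ Fᶜ e)) (fun e => σ (gη Fᶜ e))) = 0 := by
    intro σ
    rw [map_smul, ← hΛ _ _ _ (reg_perm _ _ hregG σ), hPF p (z + f) _ _ _ A hA1 hA2 hcardG,
      hALT (ZMod p) (z + f) (p - 2) hd _ _ _ σ, h0]
    simp
  rw [Finset.sum_eq_zero fun σ _ => h2 σ] at h1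
  have h3 : DD p A (uτ z m) (uη z m) = DD p (skew (cJ p z)) (fun e : Ed z => e.1.1) (fun e : Ed z => e.1.2) *
      DD p (skew (cJ p f)) (mτ m) (mη m) := hBLK p z f (Ed z) (ME m) _ _ _ _ _ _
  rw [h3, hPF p f _ (mτ m) (mη m) _ (skew_antisymm _) (skew_self _) hcardM] at h1
  refine mul_ne_zero ?_ (mul_ne_zero (hKZ p z hze hpz) (mul_ne_zero hcc (cJ_pf_ne p hfe))) h1.symm
  rcases hε with h | h
  · rw [h]; simp
  · rw [h]; simp

theorem rel (hPF : S_PF) (hTRF : S_TRF) (hALT : S_ALT) (hBLK : S_BLK) (hKZ : S_KZ) (hDEG : S_DEG)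
    (hIDB : S_IDB) : S_REL := by
  intro p hp hp2 f F m hreg hF hcc
  have := hp.out.two_le
  exact rel_z hPF hTRF hALT hBLK hKZ hDEG hIDB p hp2 (p - 1) f (by omega) F m hreg hF hcc

end Pool.Agent.Y819.ZF.Rel
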