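import Pool.Agent.H604R2.LEC.Count
import Pool.Agent.H604R2.LEC.Eval
import Pool.Agent.W426.LE.EL

/-!
# Project ZF: the list edge colouring conjecture for complements of graphs with small zero forcing sets
-/

set_option autoImplicit false
set_option linter.all false

namespace Pool.Agent.Y819.ZF

open MvPolynomial Finset Pool.Agent.Helper929 Pool.Agent.H604R2.LEC

/-- The skew-symmetric matrix of an oriented multigraph (edges `e : E` from `τ e` to `η e`). -/
noncomputable def SM (R : Type) [CommRing R] {n : ℕ} {E : Type} [Fintype E] (τ η : E → Fin n) :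
    Matrix (Fin n) (Fin n) (MvPolynomial E R) :=
  Matrix.of fun i j => ∑ e, ((if τ e = i ∧ η e = j then X e else 0) -
    (if τ e = j ∧ η e = i then X e else 0))

/-- The multilinear coefficient of the `d`-th power of the Pfaffian. -/
noncomputable def cc (R : Type) [CommRing R] (d : ℕ) {n : ℕ} {E : Type} [Fintype E]
    (τ η : E → Fin n) : R :=
  coeff (oneE E) (pf n (SM R τ η) ^ d)

/-- The multilinear coefficient of `det (SM + A) ^ (p - 1)`. -/
noncomputable def DD (p : ℕ) {n : ℕ} {E : Type} [Fintype E] (A : Matrix (Fin n) (Fin n) (ZMod p))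
    (τ η : E → Fin n) : ZMod p :=
  coeff (oneE E) ((SM (ZMod p) τ η + A.map C).det ^ (p - 1))

/-- The graph polynomial. -/
noncomputable def PP (R : Type) [CommRing R] {n : ℕ} {E : Type} [Fintype E] (τ η : E → Fin n) :
    MvPolynomial (Fin n) R :=
  ∏ e, (X (τ e) - X (η e))

/-- all degrees are `d` -/
def Reg {n : ℕ} {E : Type} [Fintype E] (d : ℕ) (τ η : E → Fin n) : Prop :=
  ∀ i, (univ.filter fun e => τ e = i).card + (univ.filter fun e => η e = i).card = d

/-! ### The Pfaffian and the determinant -/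

/-- ZF1 -/
def S_PF : Prop := ∀ (p : ℕ) [Fact p.Prime] (n : ℕ) (E : Type) [Fintype E] (τ η : E → Fin n)
  (A : Matrix (Fin n) (Fin n) (ZMod p)), (∀ i j, A i j = - A j i) → (∀ i, A i i = 0) →
  Fintype.card E = (p - 2) * (n / 2) → DD p A τ η = cc (ZMod p) (p - 2) τ η * pf n A

/-- ZF2a: the coefficient of a product of powers of linear forms -/
def S_COEF : Prop := ∀ (R : Type) [CommRing R] (n N : ℕ) (c y : Fin n → R),
  ∃ φ : MvPolynomial (Fin n) R →ₗ[R] R,
    (∀ a : Fin n →₀ ℕ, φ (monomial a 1) =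
      ∏ i, (((N.descFactorial (a i) : ℕ) : R) * c i ^ (N - a i))) ∧
    ∀ (E : Type) [Fintype E] (τ η : E → Fin n),
      coeff (oneE E) (∏ i, (C (c i) + ∑ j, SM R τ η i j * C (y j)) ^ N) =
        φ (∏ e, (C (y (η e)) * X (τ e) - C (y (τ e)) * X (η e)))

/-- ZF2b: homogenisation -/
def S_HOM : Prop := ∀ (R : Type) [CommRing R] (n d : ℕ) (E : Type) [Fintype E] (τ η : E → Fin n),
  Reg d τ η → ∀ (y : Fin n → R) (a : Fin n →₀ ℕ),
    coeff a (∏ e, (C (y (η e)) * X (τ e) - C (y (τ e)) * X (η e) : MvPolynomial (Fin n) R)) =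
      (∏ i, y i ^ (d - a i)) * coeff a (PP R τ η)

/-- ZF2c -/
def S_TRF : Prop := ∀ (p : ℕ) [Fact p.Prime] (n : ℕ), Even n → ∀ (A : Matrix (Fin n) (Fin n) (ZMod p)),
  ∃ Λ : MvPolynomial (Fin n) (ZMod p) →ₗ[ZMod p] ZMod p, ∀ (E : Type) [Fintype E] (τ η : E → Fin n),
    Reg (p - 2) τ η → DD p A τ η = Λ (PP (ZMod p) τ η)

/-- ZF3 -/
def S_ALT : Prop := ∀ (R : Type) [CommRing R] (n d : ℕ), Odd d → ∀ (E : Type) [Fintype E]
  (τ η : E → Fin n) (σ : Equiv.Perm (Fin n)),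
  cc R d (fun e => σ (τ e)) (fun e => σ (η e)) =
    (((Equiv.Perm.sign σ : ℤˣ) : ℤ) : R) * cc R d τ η

/-- ZF4 -/
def S_CNT : Prop := ∀ (n d : ℕ) (E : Type) [Fintype E] (τ η : E → Fin n) (inc : Fin n → Fin d → E),
  (∀ e, τ e ≠ η e) → (∀ v, Function.Injective (inc v)) →
  (∀ v e, (∃ i, inc v i = e) ↔ (v = τ e ∨ v = η e)) →
  ∃ ε : ℤ, (ε = 1 ∨ ε = -1) ∧
    Pool.Agent.W426.LE.NN (Equiv.refl (Fin d)) inc = ε * cc ℤ d τ η

/-- ZF5 -/
def S_BLK : Prop := ∀ (p : ℕ) [Fact p.Prime] (z f : ℕ) (E₁ E₂ : Type) [Fintype E₁] [Fintype E₂]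
  (τ₁ η₁ : E₁ → Fin z) (τ₂ η₂ : E₂ → Fin f) (A₁ : Matrix (Fin z) (Fin z) (ZMod p))
  (A₂ : Matrix (Fin f) (Fin f) (ZMod p)),
  DD p ((Matrix.fromBlocks A₁ 0 0 A₂).submatrix finSumFinEquiv.symm finSumFinEquiv.symm)
    (Sum.elim (fun e => Fin.castAdd f (τ₁ e)) (fun e => Fin.natAdd z (τ₂ e)) : E₁ ⊕ E₂ → Fin (z + f))
    (Sum.elim (fun e => Fin.castAdd f (η₁ e)) (fun e => Fin.natAdd z (η₂ e))) =
  DD p A₁ τ₁ η₁ * DD p A₂ τ₂ η₂

/-- ZF5b: complete graphs -/
def S_KZ : Prop := ∀ (p z : ℕ) [Fact p.Prime], Even z → p = z + 1 →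
  DD p (skew (cJ p z)) (fun e : Ed z => e.1.1) (fun e : Ed z => e.1.2) ≠ 0

/-! ### The forcing process -/

open Classical in
/-- `Forces F Z h m`: the vertices `h c` are the current ends of the chains, `Z` is the set of the
vertices which are not yet forced; there is a sequence of forces which forces all of `Z`, and
`m {c, c'}` is the number of the stages at which (one of `c`, `c'` moves or the process ends, and) the
ends of the chains `c`, `c'` are not adjacent. -/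
inductive Forces {V : Type} [DecidableEq V] {f : ℕ} (F : SimpleGraph V) :
    Finset V → (Fin f → V) → (Ed f → ℕ) → Prop
  | done (h : Fin f → V) :
      Forces F ∅ h (fun e => if F.Adj (h e.1.1) (h e.1.2) then 0 else 1)
  | step (Z : Finset V) (h : Fin f → V) (c : Fin f) (u : V) (m : Ed f → ℕ)
      (hu : u ∈ Z) (hadj : F.Adj (h c) u) (huniq : ∀ z ∈ Z, F.Adj (h c) z → z = u)
      (hm : Forces F (Z.erase u) (Function.update h c u) m) :
      Forces F Z h (fun e => m e +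
        if (e.1.1 = c ∨ e.1.2 = c) ∧ ¬ F.Adj (h e.1.1) (h e.1.2) then 1 else 0)

/-- the vertices which are present -/
def Cur {V : Type} {f : ℕ} (Z : Finset V) (h : Fin f → V) (v : V) : Prop :=
  v ∈ Z ∨ ∃ c, h c = v

open Classical in
/-- number of the non-neighbours which are present -/
noncomputable def codeg {V : Type} [Fintype V] {f : ℕ} (F : SimpleGraph V) (Z : Finset V)
    (h : Fin f → V) (v : V) : ℕ :=
  (univ.filter fun w => Cur Z h w ∧ w ≠ v ∧ ¬ F.Adj v w).card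

open Classical in
/-- ZF6: the degrees of the chain multigraph -/
def S_DEG : Prop := ∀ (V : Type) [Fintype V] [DecidableEq V] (f : ℕ) (F : SimpleGraph V) (Z : Finset V)
  (h : Fin f → V) (m : Ed f → ℕ), Function.Injective h → (∀ c, h c ∉ Z) →
  (∀ v ∈ Z, codeg F Z h v = Z.card - 1) → Forces F Z h m →
  ∀ c, ∑ e ∈ univ.filter (fun e : Ed f => e.1.1 = c ∨ e.1.2 = c), m e = codeg F Z h (h c)

open Classical in
/-- the polynomial of the graph with the relation `T` -/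
noncomputable def PR {n : ℕ} {K : Type} [CommRing K] (T : Fin n → Fin n → Prop) (s : Fin n → K) : K :=
  ∏ e ∈ univ.filter (fun e : Ed n => T e.1.1 e.1.2), (s e.1.1 - s e.1.2)

open Classical in
/-- ZF7a: splitting off the edges at a vertex -/
def S_SPLIT : Prop := ∀ (n : ℕ) (T : Fin n → Fin n → Prop), (∀ a b, T a b → T b a) → ∀ (x : Fin n),
  ∃ δ : ℤ, (δ = 1 ∨ δ = -1) ∧ ∀ (K : Type) [CommRing K] (s : Fin n → K),
    PR T s = (δ : K) * (∏ w ∈ univ.filter (fun w => T x w ∧ w ≠ x), (s x - s w)) *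
      PR (fun a b => T a b ∧ a ≠ x ∧ b ≠ x) s

/-- ZF7b: swapping two variables in a Vandermonde product -/
def S_VSWAP : Prop := ∀ (n : ℕ) (Z : Finset (Fin n)) (u i : Fin n), u ∈ Z → i ∈ Z →
  ∀ (K : Type) [CommRing K] (s : Fin n → K),
    PR (fun a b => a ∈ Z ∧ b ∈ Z) (fun v => s (Equiv.swap u i v)) =
      (((Equiv.Perm.sign (Equiv.swap u i) : ℤˣ) : ℤ) : K) * PR (fun a b => a ∈ Z ∧ b ∈ Z) s

/-- ZF7c: Lagrange interpolation -/
def S_LAG : Prop := ∀ (n : ℕ) (Z : Finset (Fin n)) (K : Type) [Field K] (s : Fin n → K),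
  Function.Injective s → ∀ (g : Polynomial K), g.degree < Z.card → ∀ t : K,
    ∑ i ∈ Z, (∏ z ∈ Z.erase i, (t - s z)) / (∏ z ∈ Z.erase i, (s i - s z)) * g.eval (s i) = g.eval t

open Classical in
/-- ZF7: the alternating sum of the graph polynomials -/
def S_IDB : Prop := ∀ (n f : ℕ) (F : SimpleGraph (Fin n)) (Z : Finset (Fin n)) (h : Fin f → Fin n)
  (m : Ed f → ℕ), Function.Injective h → (∀ c, h c ∉ Z) →
  (∀ v ∈ Z, codeg F Z h v = Z.card - 1) → Forces F Z h m →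
  ∃ ε : ℤ, (ε = 1 ∨ ε = -1) ∧ ∀ (K : Type) [Field K] (s : Fin n → K), Function.Injective s →
    ∑ σ ∈ univ.filter (fun σ : Equiv.Perm (Fin n) => ∀ v, v ∉ Z → σ v = v),
      (((Equiv.Perm.sign σ : ℤˣ) : ℤ) : K) *
        PR (fun a b => Cur Z h a ∧ Cur Z h b ∧ ¬ F.Adj a b) (fun v => s (σ v)) =
    (ε : K) * PR (fun a b => a ∈ Z ∧ b ∈ Z) s * ∏ e : Ed f, (s (h e.1.1) - s (h e.1.2)) ^ m e

/-- ZF8: zero forcing sets: a forced vertex -/
inductive Forced {V : Type} (F : SimpleGraph V) (S : Set V) : V → Prop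
  | mem (v : V) (h : v ∈ S) : Forced F S v
  | force (x u : V) (hx : Forced F S x) (hxu : F.Adj x u)
      (h : ∀ w, F.Adj x w → w ≠ u → Forced F S w) : Forced F S u

/-- a zero forcing set gives a forcing process -/
def S_CHAIN : Prop := ∀ (V : Type) [DecidableEq V] (f : ℕ) (F : SimpleGraph V) (Z : Finset V)
  (h : Fin f → V), Function.Injective h → (∀ v, v ∉ Z ↔ ∃ c, h c = v) →
  (∀ v, Forced F {v | v ∉ Z} v) → ∃ m : Ed f → ℕ, Forces F Z h m

/-! ### Small multigraphs -/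

/-- the edges of the multigraph with multiplicities `m` -/
abbrev ME {f : ℕ} (m : Ed f → ℕ) : Type := (e : Ed f) × Fin (m e)

def mτ {f : ℕ} (m : Ed f → ℕ) : ME m → Fin f := fun x => x.1.1.1
def mη {f : ℕ} (m : Ed f → ℕ) : ME m → Fin f := fun x => x.1.1.2

open Classical in
/-- ZF9a: substitution of sums of disjoint sets of variables -/
def S_SUB : Prop := ∀ (R : Type) [CommRing R] (K E : Type) [Fintype K] [Fintype E] (κ : E → K)
  (g : MvPolynomial K R),
  coeff (oneE E) (aeval (fun k => ∑ e ∈ univ.filter (fun e => κ e = k), (X e : MvPolynomial E R)) g) =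
    (((∏ k, ((univ.filter (fun e => κ e = k)).card).factorial) : ℕ) : R) *
      coeff (Finsupp.equivFunOnFinite.symm fun k => (univ.filter (fun e => κ e = k)).card) g

open Classical in
/-- ZF9b -/
def S_SMALL : Prop := ∀ (p : ℕ) [Fact p.Prime], p ≠ 2 → ∀ (f : ℕ), (f = 2 ∨ f = 4) → ∀ (m : Ed f → ℕ),
  (∀ c, ∑ e ∈ univ.filter (fun e : Ed f => e.1.1 = c ∨ e.1.2 = c), m e = p - 2) →
  cc (ZMod p) (p - 2) (mτ m) (mη m) ≠ 0

/-! ### Graphs and their covers -/

/-- the derived graph of a voltage assignment -/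
def coverGraph {V P : Type} [Group P] (G : SimpleGraph V) (β : V → V → P)
    (hβ : ∀ u v, β v u = (β u v)⁻¹) : SimpleGraph (V × P) where
  Adj x y := G.Adj x.1 y.1 ∧ y.2 = x.2 * β x.1 y.1
  symm := by
    constructor
    rintro x y ⟨h1, h2⟩
    refine ⟨h1.symm, ?_⟩
    rw [h2, hβ x.1 y.1]
    simp
  loopless := ⟨fun x h => G.loopless.irrefl _ h.1⟩

/-- the edges of a graph on `Fin n` -/
abbrev GE {n : ℕ} (G : SimpleGraph (Fin n)) : Type := {e : Ed n // G.Adj e.1.1 e.1.2}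

noncomputable instance {n : ℕ} (G : SimpleGraph (Fin n)) : Fintype (GE G) := Fintype.ofFinite _

def gτ {n : ℕ} (G : SimpleGraph (Fin n)) : GE G → Fin n := fun e => e.1.1.1
def gη {n : ℕ} (G : SimpleGraph (Fin n)) : GE G → Fin n := fun e => e.1.1.2

open Classical in
/-- ZF10 -/
def S_GC : Prop := ∀ (p : ℕ) [Fact p.Prime] (n d : ℕ) (G : SimpleGraph (Fin n)),
  (∀ v, (univ.filter fun w => G.Adj v w).card = d) →
  cc (ZMod p) d (gτ G) (gη G) ≠ 0 →
  ∀ (P : Type) [Group P] [Fintype P], IsPGroup p P → ∀ (β : Fin n → Fin n → P)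
    (hβ : ∀ u v, β v u = (β u v)⁻¹), Pool.Agent.W426.LE.EL.EL (coverGraph G β hβ) d

/-- ZF11: the relation between graph polynomials -/
def S_REL : Prop := ∀ (p : ℕ) [Fact p.Prime], p ≠ 2 → ∀ (f : ℕ) (F : SimpleGraph (Fin (p - 1 + f)))
  (m : Ed f → ℕ), (∀ v, (F.neighborSet v).ncard = f) →
  Forces F (univ.image (Fin.castAdd f : Fin (p - 1) → Fin (p - 1 + f))) (Fin.natAdd (p - 1)) m →
  cc (ZMod p) (p - 2) (mτ m) (mη m) ≠ 0 →
  cc (ZMod p) (p - 2) (gτ Fᶜ) (gη Fᶜ) ≠ 0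

end Pool.Agent.Y819.ZF
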