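import Pool.Agent.Y819.ZF.Rel3
import Pool.Agent.W862.LE.Lift

/-!
# Project ZF, second part: a class of regular multigraphs closed under the forcing construction
-/

set_option autoImplicit false
set_option linter.all false

namespace Pool.Agent.Y819.ZF

open MvPolynomial Finset Pool.Agent.Helper929 Pool.Agent.H604R2.LEC

/-- ZG1: re-indexing and re-orienting the edges and renumbering the vertices changes only the sign -/
def S_ISO : Prop := ∀ (R : Type) [CommRing R] (d n : ℕ) (E E' : Type) [Fintype E] [Fintype E']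
  (τ η : E → Fin n) (τ' η' : E' → Fin n) (ψ : E ≃ E') (σ : Equiv.Perm (Fin n)),
  (∀ e, (τ' (ψ e) = σ (τ e) ∧ η' (ψ e) = σ (η e)) ∨ (τ' (ψ e) = σ (η e) ∧ η' (ψ e) = σ (τ e))) →
  ∃ ε : ℤ, (ε = 1 ∨ ε = -1) ∧ cc R d τ' η' = (ε : R) * cc R d τ η

/-- the multiplicities `μ v w` of a multigraph on `V` (symmetric), after numbering the vertices -/
def nm {V : Type} {n : ℕ} (μ : V → V → ℕ) (e : V ≃ Fin n) : Ed n → ℕ :=
  fun x => μ (e.symm x.1.1) (e.symm x.1.2)

/-- the Pfaffian coefficient of the multigraph does not vanish mod `p` -/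
def OK (p : ℕ) (V : Type) (μ : V → V → ℕ) : Prop :=
  ∀ (n : ℕ) (e : V ≃ Fin n), cc (ZMod p) (p - 2) (mτ (nm μ e)) (mη (nm μ e)) ≠ 0

open Classical in
/-- the multiplicities of a simple graph -/
noncomputable def ind {V : Type} (G : SimpleGraph V) : V → V → ℕ := fun v w => if G.Adj v w then 1 else 0

/-- symmetric, no loops, all degrees `d` -/
structure RegM {V : Type} (d : ℕ) (μ : V → V → ℕ) : Prop where
  fin : Finite V
  symm : ∀ v w, μ v w = μ w v
  diag : ∀ v, μ v v = 0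
  reg : ∀ v, ∑ᶠ w, μ v w = d

/-- ZG2: the numbering does not matter -/
def S_NUM : Prop := ∀ (p : ℕ) [Fact p.Prime] (d : ℕ) (V : Type) (μ : V → V → ℕ),
  (∀ v w, μ v w = μ w v) → ∀ (n : ℕ) (e e' : V ≃ Fin n),
  cc (ZMod p) d (mτ (nm μ e)) (mη (nm μ e)) ≠ 0 → cc (ZMod p) d (mτ (nm μ e')) (mη (nm μ e')) ≠ 0

/-- ZG3: the two descriptions of a simple graph -/
def S_GME : Prop := ∀ (p : ℕ) [Fact p.Prime] (d : ℕ) (V : Type) (G : SimpleGraph V) (n : ℕ)
  (e : V ≃ Fin n),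
  (cc (ZMod p) d (gτ (G.comap e.symm)) (gη (G.comap e.symm)) ≠ 0 ↔
    cc (ZMod p) d (mτ (nm (ind G) e)) (mη (nm (ind G) e)) ≠ 0)

/-- disjoint union -/
def sumM {V W : Type} (μ : V → V → ℕ) (ν : W → W → ℕ) : V ⊕ W → V ⊕ W → ℕ
  | Sum.inl v, Sum.inl v' => μ v v'
  | Sum.inr w, Sum.inr w' => ν w w'
  | _, _ => 0

/-- ZG4: disjoint unions -/
def S_UNI : Prop := ∀ (p : ℕ) [Fact p.Prime], p ≠ 2 → ∀ (V W : Type) (μ : V → V → ℕ) (ν : W → W → ℕ),
  RegM (p - 2) μ → RegM (p - 2) ν → OK p V μ → OK p W ν → OK p (V ⊕ W) (sumM μ ν)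

/-- ZG5: regular covers with a `p`-group -/
def S_COV : Prop := ∀ (p : ℕ) [Fact p.Prime] (V : Type) (G : SimpleGraph V), RegM (p - 2) (ind G) →
  OK p V (ind G) → ∀ (P : Type) [Group P] [Finite P], IsPGroup p P → ∀ (β : V → V → P)
    (hβ : ∀ u v, β v u = (β u v)⁻¹), OK p (V × P) (ind (coverGraph G β hβ))

/-- ZG6: the complete graph on `p - 1` vertices -/
def S_KOK : Prop := ∀ (p : ℕ) [Fact p.Prime], p ≠ 2 → ∀ (V : Type), Nat.card V = p - 1 →
  OK p V (ind (⊤ : SimpleGraph V))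

/-- ZG7: list colourings -/
def S_OEL : Prop := ∀ (p : ℕ) [Fact p.Prime] (V : Type) (G : SimpleGraph V), RegM (p - 2) (ind G) →
  OK p V (ind G) → Pool.Agent.W426.LE.EL.EL G (p - 2)

/-- ZG8: multigraphs whose signed number of colourings is not divisible by `p` -/
def S_SGN : Prop := ∀ (p : ℕ) [Fact p.Prime] (V E : Type) [Fintype V] [Fintype E]
  (inc : V → Fin (p - 2) → E), (∀ v, Function.Injective (inc v)) →
  (∀ e, Nat.card {q : V × Fin (p - 2) // inc q.1 q.2 = e} = 2) →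
  ¬ (p : ℤ) ∣ Pool.Agent.W426.LE.NN (Equiv.refl (Fin (p - 2))) inc →
  OK p V (fun v w => Nat.card {e : E // v ≠ w ∧ (∃ i, inc v i = e) ∧ ∃ j, inc w j = e})

/-- ZG9: a family of graphs on `2 k` vertices `(i, false)`, `(i, true)`; `A`, `B` are sets of pairs
`i < j` -/
def famG (k : ℕ) (A B : Finset (Fin k × Fin k)) : SimpleGraph (Fin k × Bool) :=
  SimpleGraph.fromRel fun u v => u.1 < v.1 ∧
    ((u.2 = false ∧ v.2 = true) ∨
      (u.2 = false ∧ v.2 = false ∧ (u.1, v.1) ∈ A) ∨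
      (u.2 = true ∧ v.2 = true ∧ (u.1, v.1) ∈ B) ∨
      (u.2 = true ∧ v.2 = false ∧ (u.1, v.1) ∉ A ∧ (u.1, v.1) ∉ B))

def S_FAM : Prop := ∀ (k : ℕ) (A B : Finset (Fin k × Fin k)), Disjoint A B →
  (∀ i, (A.filter fun x => x.1 = i ∧ x.1 < x.2).card = (B.filter fun x => x.2 = i ∧ x.1 < x.2).card) →
  (∀ v, (((famG k A B)ᶜ).neighborSet v).ncard = k) ∧
  Forces (famG k A B)ᶜ (univ.filter fun v : Fin k × Bool => v.2 = true) (fun i => (i, false))
    (fun _ => 1)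

end Pool.Agent.Y819.ZF
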