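import Pool.Agent.Y819.ZF.Stm2
import Pool.Agent.TH378.LCClass

/-!
# Project ZF, fourth part: covers and splicing of multigraphs, orbits, switching
-/

set_option autoImplicit false
set_option linter.all false

namespace Pool.Agent.Y819.ZF

open MvPolynomial Finset Pool.Agent.Helper929 Pool.Agent.H604R2.LEC

/-- a 1-factorization of the multigraph `μ`: the `i`-th factor is the involution `F i` -/
structure IsFac {V : Type} {d : ℕ} (μ : V → V → ℕ) (F : Fin d → V → V) : Prop where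
  inv : ∀ i v, F i (F i v) = v
  ne : ∀ i v, F i v ≠ v
  mult : ∀ v w, Nat.card {i // F i v = w} = μ v w

/-- ZS1 -/
def S_FACB : Prop := ∀ (p : ℕ) [Fact p.Prime] (V : Type) [Finite V] (μ : V → V → ℕ)
  (F : Fin (p - 2) → V → V), IsFac μ F →
  (∀ _ : Fintype V, ¬ (p : ℤ) ∣ Pool.Agent.TH378.LC.AT F) → OK p V μ

/-- ZS2 -/
def S_FACF : Prop := ∀ (p : ℕ) [Fact p.Prime] (V : Type) (μ : V → V → ℕ), RegM (p - 2) μ →
  OK p V μ → ∃ F : Fin (p - 2) → V → V, IsFac μ F ∧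
    ∀ _ : Fintype V, ¬ (p : ℤ) ∣ Pool.Agent.TH378.LC.AT F

/-- `κ v w x` is the number of the edges from `v` to `w` with the voltage `x` -/
noncomputable def covM {V P Ω : Type} [Group P] [MulAction P Ω] (κ : V → V → P → ℕ) :
    V × Ω → V × Ω → ℕ :=
  fun a b => ∑ᶠ x : {x : P // x • a.2 = b.2}, κ a.1 b.1 x.1

/-- ZS3: covers of multigraphs whose monodromy group is a `p`-group -/
def S_COVM : Prop := ∀ (p : ℕ) [Fact p.Prime] (V P Ω : Type) [Group P] [Finite P] [MulAction P Ω]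
  [Finite Ω], IsPGroup p P → ∀ κ : V → V → P → ℕ, (∀ v w x, κ w v x⁻¹ = κ v w x) →
  RegM (p - 2) (fun v w => ∑ᶠ x, κ v w x) → OK p V (fun v w => ∑ᶠ x, κ v w x) →
  RegM (p - 2) (covM (Ω := Ω) κ) ∧ OK p (V × Ω) (covM (Ω := Ω) κ)

/-- splicing at the vertices `none`; `c v w` new edges between `v` and `w` -/
def splM {V W : Type} (μ : Option V → Option V → ℕ) (ν : Option W → Option W → ℕ) (c : V → W → ℕ) :
    V ⊕ W → V ⊕ W → ℕ
  | Sum.inl v, Sum.inl v' => μ (some v) (some v')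
  | Sum.inr w, Sum.inr w' => ν (some w) (some w')
  | Sum.inl v, Sum.inr w => c v w
  | Sum.inr w, Sum.inl v => c v w

/-- ZS4: splicing of multigraphs -/
def S_SPLM : Prop := ∀ (p : ℕ) [Fact p.Prime], p ≠ 2 → ∀ (V W : Type)
  (μ : Option V → Option V → ℕ) (ν : Option W → Option W → ℕ) (c : V → W → ℕ),
  RegM (p - 2) μ → RegM (p - 2) ν → (∀ v, ∑ᶠ w, c v w = μ none (some v)) →
  (∀ w, ∑ᶠ v, c v w = ν none (some w)) → OK p (Option V) μ → OK p (Option W) ν →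
  RegM (p - 2) (splM μ ν c) ∧ OK p (V ⊕ W) (splM μ ν c)

/-- ZS5: graphs with a free action of a group such that the orbits are independent -/
def S_ORB : Prop := ∀ (V : Type) (G : SimpleGraph V) (P : Type) [Group P] [Finite P] [MulAction P V]
  (k d : ℕ), (∀ (g : P) v w, G.Adj v w → G.Adj (g • v) (g • w)) →
  (∀ (g : P) (v : V), g • v = v → g = 1) → (∀ (g : P) (v : V), ¬ G.Adj v (g • v)) →
  0 < k → Nat.card V = k * Nat.card P → (∀ v, (G.neighborSet v).ncard = d) →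
  ∃ (κ : Fin k → Fin k → P → ℕ) (e : Fin k × P ≃ V), (∀ v w x, κ w v x⁻¹ = κ v w x) ∧
    RegM d (fun v w => ∑ᶠ x, κ v w x) ∧
    ∀ a b, ind G (e a) (e b) = covM (P := P) (Ω := P) κ a b

/-- one more edge between `a` and `b` -/
def addE {V : Type} [DecidableEq V] (ρ : V → V → ℕ) (a b : V) : V → V → ℕ :=
  fun v w => ρ v w + if (v = a ∧ w = b) ∨ (v = b ∧ w = a) then 1 else 0

/-- the graph polynomial of a multigraph on `Fin n` -/
noncomputable def GP (R : Type) [CommRing R] {n : ℕ} (μ : Fin n → Fin n → ℕ) :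
    MvPolynomial (Fin n) R :=
  ∏ i, ∏ j, if i < j then (X i - X j) ^ μ i j else 1

/-- ZS6: switching -/
def S_SWI : Prop := ∀ (R : Type) [CommRing R] (n : ℕ) (ρ : Fin n → Fin n → ℕ) (a b c e : Fin n),
  (∀ v w, ρ v w = ρ w v) → a ≠ b → a ≠ c → a ≠ e → b ≠ c → b ≠ e → c ≠ e →
  ∃ ε₁ ε₂ : ℤ, (ε₁ = 1 ∨ ε₁ = -1) ∧ (ε₂ = 1 ∨ ε₂ = -1) ∧
    GP R (addE (addE ρ a b) c e) = (ε₁ : MvPolynomial (Fin n) R) * GP R (addE (addE ρ a c) b e) +
      (ε₂ : MvPolynomial (Fin n) R) * GP R (addE (addE ρ a e) b c)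

/-- ZS7: isomorphic multigraphs have the same polynomial up to sign and renaming -/
def S_GPI : Prop := ∀ (R : Type) [CommRing R] (n : ℕ) (μ : Fin n → Fin n → ℕ) (σ : Equiv.Perm (Fin n)),
  (∀ v w, μ v w = μ w v) →
  ∃ ε : ℤ, (ε = 1 ∨ ε = -1) ∧
    GP R (fun v w => μ (σ v) (σ w)) = (ε : MvPolynomial (Fin n) R) *
      rename (σ.symm : Fin n → Fin n) (GP R μ)

end Pool.Agent.Y819.ZF
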